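import Pool.Agent.Run7.h495.IIC.Mom

/-!
Passing to the infinite lattice, the Harris inequality in infinite volume, and the comparison of
the two conditionings (connection to a far point, connection to a far distance).
-/

set_option autoImplicit false

namespace Run7.h495.IIC
open Finset H974 Pool.Agent.H160R2.CV Pool.Agent.H160R2.CV.Quad H362P MeasureTheory
open Pool.Agent.H389R2.CD Pool.Agent.Y244.PC Filter Topology

/-- increasing events which are determined by finite boxes -/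
structure Inc (Q : Set Edg → Prop) : Prop where
  mono : ∀ F G, F ⊆ G → Q F → Q G
  box : ∀ F, Q F → ∃ m : ℕ, Q (F ∩ ↑(boxE m))

theorem Inc.and {Q R : Set Edg → Prop} (hQ : Inc Q) (hR : Inc R) : Inc (fun F => Q F ∧ R F) where
  mono := fun F G h hF => ⟨hQ.mono F G h hF.1, hR.mono F G h hF.2⟩
  box := by
    rintro F ⟨h1, h2⟩
    obtain ⟨m1, h1⟩ := hQ.box _ h1
    obtain ⟨m2, h2⟩ := hR.box _ h2
    exact ⟨max m1 m2,
      hQ.mono _ _ (Set.inter_subset_inter_right _ (InfAux.boxE_coe_mono (le_max_left _ _))) h1,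
      hR.mono _ _ (Set.inter_subset_inter_right _ (InfAux.boxE_coe_mono (le_max_right _ _))) h2⟩

theorem Inc.tend {Q : Set Edg → Prop} (hQ : Inc Q) :
    Tendsto (fun m : ℕ => Pr P (boxE m) (fun F => Q ↑F)) atTop
      (𝓝 (μc.real {ω | Q (opn ω)})) := by
  have e : {ω : sqLattice.edgeSet → Bool | Q (opn ω)} = ⋃ m : ℕ, {ω | Q (opn ω ∩ ↑(boxE m))} := by
    ext ω
    rw [Set.mem_iUnion]
    constructor
    · intro hω
      exact hQ.box _ hω
    · rintro ⟨m, hm⟩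
      exact hQ.mono _ _ Set.inter_subset_left hm
  have hm : Monotone (fun m : ℕ => {ω : sqLattice.edgeSet → Bool | Q (opn ω ∩ ↑(boxE m))}) := by
    intro m m' hmm ω hω
    exact hQ.mono _ _ (Set.inter_subset_inter_right _ (InfAux.boxE_coe_mono hmm)) hω
  have h1 := tendsto_measure_iUnion_atTop (μ := bondLaw hlf) hm
  rw [← e] at h1
  have h2 : Tendsto (fun m : ℕ => (bondLaw hlf).real {ω | Q (opn ω ∩ ↑(boxE m))}) atTop
      (nhds ((bondLaw hlf).real {ω | Q (opn ω)})) :=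
    (ENNReal.tendsto_toReal (measure_ne_top _ _)).comp h1
  refine h2.congr (fun m => ?_)
  rw [InfAux.law_box]

theorem Inc.incrE {Q : Set Edg → Prop} (hQ : Inc Q) (S : Finset Edg) :
    IncrE S (fun F => Q ↑F) :=
  fun F G h _ hF => hQ.mono _ _ (by exact_mod_cast h) hF

/-- Harris inequality in infinite volume -/
theorem Inc.harris {Q R : Set Edg → Prop} (hQ : Inc Q) (hR : Inc R) :
    μc.real {ω | Q (opn ω)} * μc.real {ω | R (opn ω)} ≤ μc.real {ω | Q (opn ω) ∧ R (opn ω)} := by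
  have h1 := hQ.tend.mul hR.tend
  have h2 := (hQ.and hR).tend
  refine le_of_tendsto_of_tendsto' h1 h2 (fun m => ?_)
  exact Pr_harris w_ok (hQ.incrE _) (hR.incrE _)

theorem inc_reach (u v : Vtx) : Inc (fun F => Reach F u v) where
  mono := fun _ _ h hF => hF.mono h
  box := fun _ hF => InfAux.reach_box hF

theorem inc_vn (n : ℕ) (y : ℝ) : Inc (fun F => Vn n y F) where
  mono := fun _ _ h hF => hF.mono h
  box := fun _ hF => hF.box

/-- the origin is connected to a vertex at distance at least `N` -/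
def FarS (N : ℕ) (F : Set Edg) : Prop := ∃ u : Vtx, N ≤ nv u ∧ Reach F (0, 0) u

theorem inc_far (N : ℕ) : Inc (FarS N) where
  mono := by
    rintro F G h ⟨u, h1, h2⟩
    exact ⟨u, h1, h2.mono h⟩
  box := by
    rintro F ⟨u, h1, h2⟩
    obtain ⟨m, hm⟩ := InfAux.reach_box h2
    exact ⟨m, u, h1, hm⟩

theorem farS_coe {N : ℕ} {F : Finset Edg} : FarS N ↑F ↔ Far (0, 0) N F := by
  have e : ∀ u : Vtx, u - ((0, 0) : Vtx) = u := fun u => sub_zero u
  unfold FarS Far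
  simp only [e]

theorem FarS.anti {N N' : ℕ} (h : N ≤ N') {F : Set Edg} (hF : FarS N' F) : FarS N F := by
  obtain ⟨u, h1, h2⟩ := hF
  exact ⟨u, h.trans h1, h2⟩

/-- the probability of `FarS N` is the one-arm probability -/
theorem farS_prob (N : ℕ) : μc.real {ω | FarS N (opn ω)} = ar N := by
  refine le_antisymm ?_ ?_
  · refine le_of_tendsto' (inc_far N).tend (fun m => ?_)
    refine (Pr_mono w_ok (B := Far (0, 0) N) fun F _ hF => farS_coe.mp hF).trans ?_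
    exact far_le _ _ _
  · have h1 := far_ge (S := boxE (0 + N)) (n := 0) (r := N) (Finset.Subset.refl _) (v := (0, 0))
      (by rw [w_mem_bx]; simp)
    refine h1.trans ((Pr_mono w_ok (B := fun F => FarS N ↑F) fun F _ hF => farS_coe.mpr hF).trans
      (InfAux.lower (FarS N) (inc_far N).mono _))

theorem nv00 : nv ((0, 0) : Vtx) = 0 := rfl

theorem sub00 (u : Vtx) : u - ((0, 0) : Vtx) = u := sub_zero u

/-- from distance `N` to a point at distance `N` -/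
theorem far_to_point : ∃ c : ℝ, 0 < c ∧ ∀ N : ℕ, 3 ≤ N → ∀ Q : Set Edg → Prop, Inc Q →
    c * ar N * μc.real {ω | Q (opn ω) ∧ FarS N (opn ω)} ≤
      μc.real {ω | Q (opn ω) ∧ Reach (opn ω) (0, 0) ((N : ℤ), 0)} := by
  obtain ⟨C9, hC9, h9⟩ := ar_ratio 9
  obtain ⟨C4, hC4, h4⟩ := ar_ratio 4
  refine ⟨(1 / 2 : ℝ) ^ 188 * (1 / C9) * (1 / 2 : ℝ) ^ 188 * (1 / C4), by positivity,
    fun N hN Q hQ => ?_⟩
  set w : Vtx := ((N : ℤ), 0) with hw
  have hwn : nv w = N := by rw [hw]; unfold nv; simp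
  set r := N / 3 with hr
  have hr1 : 1 ≤ r := by omega
  have h3r : 3 * r ≤ N := by omega
  have hb : 1 / C9 ≤ barm (1 / 2) r (3 * N) := by
    have k1 := ar_split (r := r) (n := 3 * N) (by omega)
    have k2 := h9 r (3 * N) (by omega) (by omega)
    have k3 := ar_pos r
    have k4 := ar_pos (3 * N)
    rw [div_le_iff₀ hC9]
    have k5 : ar r ≤ C9 * (ar r * barm (1 / 2) r (3 * N)) :=
      k2.trans (mul_le_mul_of_nonneg_left k1 hC9.le)
    have k6 : ar r * 1 ≤ ar r * (barm (1 / 2) r (3 * N) * C9) := by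
      calc ar r * 1 = ar r := mul_one _
        _ ≤ C9 * (ar r * barm (1 / 2) r (3 * N)) := k5
        _ = _ := by ring
    exact le_of_mul_le_mul_left k6 k3
  have ha : ar N * (1 / C4) ≤ ar (4 * N) := by
    rw [mul_one_div, div_le_iff₀ hC4, mul_comm]
    exact h4 N (4 * N) (by omega) (by omega)
  have hQF := hQ.and (inc_far N)
  have hQR := hQ.and (inc_reach (0, 0) w)
  refine le_of_tendsto_of_tendsto ((hQF.tend).const_mul _) hQR.tend ?_
  filter_upwards [eventually_ge_atTop (10 * N)] with M hM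
  set S := boxE M with hS
  set A1 := CA (0, 0) r (3 * r) with hA1
  set A2 := Ex1 (0, 0) r (3 * N) with hA2
  set A3 := CA (0, 0) N (3 * N) with hA3
  set A4 := Far w (4 * N) with hA4
  set B : Finset Edg → Prop := fun F => Q ↑F ∧ FarS N ↑F with hB
  have h1 : (1 / 2 : ℝ) ^ 188 ≤ Pr P S A1 :=
    pr_CA hr1 (bo_sub.trans (boxE_mono (by rw [nv00]; omega)))
  have h2 : 1 / C9 ≤ Pr P S A2 :=
    hb.trans (pr_Ex1_ge (bo_sub.trans (boxE_mono (by rw [nv00]; omega))))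
  have h3 : (1 / 2 : ℝ) ^ 188 ≤ Pr P S A3 :=
    pr_CA (by omega) (bo_sub.trans (boxE_mono (by rw [nv00]; omega)))
  have h4 : ar N * (1 / C4) ≤ Pr P S A4 :=
    ha.trans (far_ge (n := nv w) (boxE_mono (by rw [hwn]; omega)) (InfAux.mem_bx_nv w))
  have n1 : IncrE S A1 := CA_incr S _ _ _
  have n2 : IncrE S A2 := Ex1_incr S _ _ _
  have n3 : IncrE S A3 := CA_incr S _ _ _
  have n4 : IncrE S A4 := TwoAux.far_incr S _ _
  have nB : IncrE S B := hQF.incrE S
  have p0 : 0 ≤ Pr P S B := Pr_nonneg w_ok _ _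
  have q1 : 0 ≤ Pr P S A1 := Pr_nonneg w_ok _ _
  have q2 : 0 ≤ Pr P S A2 := Pr_nonneg w_ok _ _
  have q3 : 0 ≤ Pr P S A3 := Pr_nonneg w_ok _ _
  have q4 : 0 ≤ Pr P S A4 := Pr_nonneg w_ok _ _
  have pN := (ar_pos N).le
  have i1 := Pr_harris w_ok n1 n2
  have i2 := Pr_harris w_ok (S := S) (A := fun F => A1 F ∧ A2 F) (B := A3)
    (fun F G h h' hF => ⟨n1 F G h h' hF.1, n2 F G h h' hF.2⟩) n3
  have i3 := Pr_harris w_ok (S := S) (A := fun F => (A1 F ∧ A2 F) ∧ A3 F) (B := A4)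
    (fun F G h h' hF => ⟨⟨n1 F G h h' hF.1.1, n2 F G h h' hF.1.2⟩, n3 F G h h' hF.2⟩) n4
  have i4 := Pr_harris w_ok (S := S) (A := fun F => ((A1 F ∧ A2 F) ∧ A3 F) ∧ A4 F)
    (B := B)
    (fun F G h h' hF => ⟨⟨⟨n1 F G h h' hF.1.1.1, n2 F G h h' hF.1.1.2⟩, n3 F G h h' hF.1.2⟩,
      n4 F G h h' hF.2⟩) nB
  have i5 : Pr P S (fun F => (((A1 F ∧ A2 F) ∧ A3 F) ∧ A4 F) ∧ B F) ≤
      Pr P S (fun F => Q ↑F ∧ Reach ↑F (0, 0) w) := by
    apply Pr_mono w_ok
    rintro F _ ⟨⟨⟨⟨k1, k2⟩, k3⟩, t, ht, hwt⟩, k5, v, hv, h0v⟩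
    obtain ⟨z, hz⟩ := CA_meet (by omega) k1
    obtain ⟨z', hz'⟩ := CA_meet (by omega) k3
    obtain ⟨u, s, hu, hs, hus⟩ := Ex1_out k2
    rw [sub00] at hu hs
    have m1 := hz (0, 0) v (by rw [nv_self]; omega) (by rw [sub00]; omega) h0v
    have m2 := hz u s (by rw [sub00]; omega) (by rw [sub00]; omega) hus
    have m3 := hz' u s (by rw [sub00]; omega) (by rw [sub00]; omega) hus
    have t1 : 3 * N ≤ nv t := by
      have := nv_tri t (0, 0) w
      have e2 : nv ((0, 0) - w) = N := by rw [w_nv_comm, sub00]; exact hwn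
      rw [sub00, e2] at this
      omega
    have m4 := hz' w t (by rw [sub00]; omega) (by rw [sub00]; omega) hwt
    exact ⟨k5, (m1.trans m2.symm).trans (m3.trans m4.symm)⟩
  have pc9 : (0 : ℝ) ≤ 1 / C9 := by positivity
  have pc4 : (0 : ℝ) ≤ 1 / C4 := by positivity
  have j1 : (1 / 2 : ℝ) ^ 188 * (1 / C9) ≤ Pr P S A1 * Pr P S A2 := mul_le_mul h1 h2 pc9 q1
  have j2 : (1 / 2 : ℝ) ^ 188 * (1 / C9) * (1 / 2 : ℝ) ^ 188 ≤
      Pr P S A1 * Pr P S A2 * Pr P S A3 := mul_le_mul j1 h3 (by positivity) (mul_nonneg q1 q2)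
  have j3 : (1 / 2 : ℝ) ^ 188 * (1 / C9) * (1 / 2 : ℝ) ^ 188 * (ar N * (1 / C4)) ≤
      Pr P S A1 * Pr P S A2 * Pr P S A3 * Pr P S A4 :=
    mul_le_mul j2 h4 (mul_nonneg pN pc4) (mul_nonneg (mul_nonneg q1 q2) q3)
  calc (1 / 2 : ℝ) ^ 188 * (1 / C9) * (1 / 2 : ℝ) ^ 188 * (1 / C4) * ar N * Pr P S B
      = ((1 / 2 : ℝ) ^ 188 * (1 / C9) * (1 / 2 : ℝ) ^ 188 * (ar N * (1 / C4))) * Pr P S B := by
        ring
    _ ≤ (Pr P S A1 * Pr P S A2 * Pr P S A3 * Pr P S A4) * Pr P S B :=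
        mul_le_mul_of_nonneg_right j3 p0
    _ ≤ (Pr P S (fun F => A1 F ∧ A2 F) * Pr P S A3 * Pr P S A4) * Pr P S B := by
        apply mul_le_mul_of_nonneg_right _ p0
        apply mul_le_mul_of_nonneg_right _ q4
        exact mul_le_mul_of_nonneg_right i1 q3
    _ ≤ (Pr P S (fun F => (A1 F ∧ A2 F) ∧ A3 F) * Pr P S A4) * Pr P S B := by
        apply mul_le_mul_of_nonneg_right _ p0
        exact mul_le_mul_of_nonneg_right i2 q4
    _ ≤ Pr P S (fun F => ((A1 F ∧ A2 F) ∧ A3 F) ∧ A4 F) * Pr P S B :=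
        mul_le_mul_of_nonneg_right i3 p0
    _ ≤ _ := i4
    _ ≤ _ := i5

/-- upper bound for the two point function by the arm probabilities -/
theorem reach_prob_le : ∃ C : ℝ, 0 < C ∧ ∀ x : Vtx,
    μc.real {ω | Reach (opn ω) (0, 0) x} ≤ C * ar (nv x) ^ 2 := by
  obtain ⟨c, C, hc, hC, h⟩ := inf_two
  refine ⟨C, hC, fun x => ?_⟩
  have e : {ω : sqLattice.edgeSet → Bool | (openGraph ω).Reachable (0, 0) x} =
      {ω | Reach (opn ω) (0, 0) x} := by
    ext ω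
    exact open_reach ω _ _
  have := (h x).2
  rwa [e] at this

theorem reach_prob_pos (x : Vtx) : 0 < μc.real {ω | Reach (opn ω) (0, 0) x} := by
  obtain ⟨c, C, hc, hC, h⟩ := inf_two
  have e : {ω : sqLattice.edgeSet → Bool | (openGraph ω).Reachable (0, 0) x} =
      {ω | Reach (opn ω) (0, 0) x} := by
    ext ω
    exact open_reach ω _ _
  have h1 := (h x).1
  rw [e] at h1
  have := ar_pos (nv x)
  exact lt_of_lt_of_le (by positivity) h1

/-- **upper tail of the volume, conditioned on a connection to a far distance** -/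
theorem tail_far (hAr : ArS) : ∃ c C : ℝ, 0 < c ∧ 0 < C ∧ ∀ n : ℕ, 1 ≤ n → ∀ N : ℕ,
    3 * n ≤ N → ∀ x : ℝ, 1 ≤ x →
    μc.real {ω | Vn n (x * (n : ℝ) ^ (91 / 48 : ℝ)) (opn ω) ∧ FarS N (opn ω)} ≤
      C * Real.exp (-(c * x ^ (96 / 5 : ℝ))) * μc.real {ω | FarS N (opn ω)} := by
  obtain ⟨c, C, hc, hC, h⟩ := tail_w hAr
  obtain ⟨c1, hc1, h1⟩ := far_to_point
  obtain ⟨C2, hC2, h2⟩ := reach_prob_le
  refine ⟨c, C * C2 / c1, hc, by positivity, fun n hn N hN x hx => ?_⟩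
  have hNw : nv (((N : ℤ), 0) : Vtx) = N := by unfold nv; simp
  have k1 := h n hn ((N : ℤ), 0) (by rw [hNw]; exact hN) x hx
  have k2 := h1 N (by omega) _ (inc_vn n (x * (n : ℝ) ^ (91 / 48 : ℝ)))
  have k3 := h2 ((N : ℤ), 0)
  rw [hNw] at k3
  have pa := ar_pos N
  rw [farS_prob]
  have e0 : 0 ≤ C * Real.exp (-(c * x ^ (96 / 5 : ℝ))) := by positivity
  have k4 : c1 * ar N * μc.real {ω | Vn n (x * (n : ℝ) ^ (91 / 48 : ℝ)) (opn ω) ∧
      FarS N (opn ω)} ≤ C * Real.exp (-(c * x ^ (96 / 5 : ℝ))) * (C2 * ar N ^ 2) :=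
    k2.trans (k1.trans (mul_le_mul_of_nonneg_left k3 e0))
  have k5 : c1 * ar N * μc.real {ω | Vn n (x * (n : ℝ) ^ (91 / 48 : ℝ)) (opn ω) ∧
      FarS N (opn ω)} ≤
      c1 * ar N * (C * C2 / c1 * Real.exp (-(c * x ^ (96 / 5 : ℝ))) * ar N) := by
    refine k4.trans (le_of_eq ?_)
    field_simp
  exact le_of_mul_le_mul_left k5 (by positivity)

end Run7.h495.IIC
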