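import Pool.Agent.Run7.h495.IIC.Lil

/-!
Existence of incipient infinite cluster measures.
-/

set_option autoImplicit false

namespace Run7.h495.IIC
open Finset H974 Pool.Agent.H160R2.CV Pool.Agent.H160R2.CV.Quad H362P MeasureTheory
open Pool.Agent.H389R2.CD Pool.Agent.Y244.PC Filter Topology

theorem local_clopen {E : Set Om} (h : LocalE E) : IsClopen E := by
  obtain ⟨S, hS⟩ := h
  -- restriction to `S`
  set r : Om → (S → Bool) := fun ω e => ω e with hr
  have hc : Continuous r := by
    rw [hr]
    fun_prop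
  have e : E = r ⁻¹' (r '' E) := by
    ext ω
    constructor
    · intro hω
      exact ⟨ω, hω, rfl⟩
    · rintro ⟨ω', h1, h2⟩
      refine (hS ω' ω ?_).mp h1
      intro e he
      exact congrFun h2 ⟨e, he⟩
  rw [e]
  exact IsClopen.preimage (isClopen_discrete _) hc

theorem exists_iic : ∃ ν : Measure Om, IsIIC ν := by
  have hpos : ∀ j : ℕ, μc {ω : Om | FarS j (opn ω)} ≠ 0 := by
    intro j h
    have h1 := farS_prob j
    rw [measureReal_def, h] at h1
    have := ar_pos j
    simp at h1
    linarith
  set μj : ℕ → ProbabilityMeasure Om := fun j =>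
    ⟨ProbabilityTheory.cond μc {ω : Om | FarS j (opn ω)},
      ProbabilityTheory.cond_isProbabilityMeasure (hpos j)⟩ with hμj
  obtain ⟨ν, φ, hφ, hlim⟩ := SeqCompactSpace.tendsto_subseq μj
  refine ⟨(ν : Measure Om), inferInstance, fun j => {ω | FarS (φ j) (opn ω)}, fun j => ?_,
    fun E hE => ?_⟩
  · exact Or.inl ⟨φ j, hφ.id_le j, rfl⟩
  · have hcl := local_clopen hE
    have h1 := ProbabilityMeasure.tendsto_measure_of_null_frontier_of_tendsto' hlim
      (E := E) (by rw [hcl.frontier_eq]; exact measure_empty)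
    have h2 := (ENNReal.tendsto_toReal (measure_ne_top (ν : Measure Om) E)).comp h1
    refine h2.congr (fun j => ?_)
    show ((ProbabilityTheory.cond μc {ω : Om | FarS (φ j) (opn ω)}) E).toReal = _
    rw [ProbabilityTheory.cond_apply (meas_inc (inc_far (φ j))), ENNReal.toReal_mul,
      ENNReal.toReal_inv, Set.inter_comm, div_eq_inv_mul]
    rfl

end Run7.h495.IIC
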