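import Pool.Agent.Run7.h495.IIC.Low

/-!
The law of the iterated logarithm for the volume of the incipient infinite cluster.
-/

set_option autoImplicit false

namespace Run7.h495.IIC
open Finset H974 Pool.Agent.H160R2.CV Pool.Agent.H160R2.CV.Quad H362P MeasureTheory
open Pool.Agent.H389R2.CD Pool.Agent.Y244.PC Filter Topology

/-- the normalisation -/
noncomputable def gn (n : ℕ) : ℝ :=
  (n : ℝ) ^ (91 / 48 : ℝ) * Real.log (Real.log n) ^ (5 / 96 : ℝ)

theorem meas_inc {Q : Set Edg → Prop} (hQ : Inc Q) : MeasurableSet {ω : Om | Q (opn ω)} := by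
  have e : {ω : Om | Q (opn ω)} = ⋃ m : ℕ, {ω | Q (opn ω ∩ ↑(boxE m))} := by
    ext ω
    rw [Set.mem_iUnion]
    constructor
    · intro hω
      exact hQ.box _ hω
    · rintro ⟨m, hm⟩
      exact hQ.mono _ _ Set.inter_subset_left hm
  rw [e]
  refine MeasurableSet.iUnion (fun m => ?_)
  have e1 : {ω : Om | Q (opn ω ∩ ↑(boxE m))} =
      {ω | (fun F : Finset Edg => Q ↑F) (FF (boxE m) ω)} := by
    ext ω
    simp only [Set.mem_ofPred_eq, FF_coe]
  rw [e1]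
  exact meas_event (boxE m) (fun F : Finset Edg => Q ↑F)

/-- arithmetic of the upper bound -/
theorem upper_arith {A : ℝ} (hA : 0 < A) : ∀ᶠ n : ℕ in atTop,
    max 1 (A * Real.log (Nat.clog 2 n : ℕ)) ^ (5 / 96 : ℝ) *
      ((2 ^ Nat.clog 2 n : ℕ) : ℝ) ^ (91 / 48 : ℝ) ≤ 4 * (1 + 2 * A) ^ (5 / 96 : ℝ) * gn n := by
  have h1 : Tendsto (fun n : ℕ => Real.log n) atTop atTop :=
    Real.tendsto_log_atTop.comp tendsto_natCast_atTop_atTop
  have h2 : Tendsto (fun n : ℕ => Real.log (Real.log n)) atTop atTop :=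
    Real.tendsto_log_atTop.comp h1
  filter_upwards [h1.eventually_ge_atTop 3, h2.eventually_ge_atTop 1, eventually_ge_atTop 2]
    with n hn3 hl1 hn2
  set j := Nat.clog 2 n with hj
  have hn0 : (0 : ℝ) < n := by exact_mod_cast (by omega : 0 < n)
  have hj1 : 1 ≤ j := by
    rw [hj]
    exact Nat.clog_pos (by norm_num) hn2
  have hlt : 2 ^ (j - 1) < n := Nat.pow_pred_clog_lt_self (by norm_num) (by omega)
  have hpow : 2 ^ j ≤ 2 * n := by
    have e : 2 ^ j = 2 * 2 ^ (j - 1) := by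
      rw [← pow_succ']
      congr 1
      omega
    omega
  have hj0 : (0 : ℝ) < j := by exact_mod_cast hj1
  -- log j
  have hjl : (j : ℝ) ≤ 2 * Real.log n + 1 := by
    have k1 : Real.log ((2 : ℝ) ^ (j - 1)) ≤ Real.log n := by
      apply Real.log_le_log (by positivity)
      exact_mod_cast hlt.le
    rw [Real.log_pow] at k1
    have k2 : ((j - 1 : ℕ) : ℝ) = j - 1 := by
      rw [Nat.cast_sub hj1, Nat.cast_one]
    rw [k2] at k1
    have k3 := Real.log_two_gt_d9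
    have k4 : (0 : ℝ) ≤ j - 1 := by
      have : (1 : ℝ) ≤ j := by exact_mod_cast hj1
      linarith
    nlinarith
  have hlog : Real.log j ≤ 2 * Real.log (Real.log n) := by
    have k1 : (j : ℝ) ≤ Real.log n ^ 2 := by nlinarith
    calc Real.log j ≤ Real.log (Real.log n ^ 2) := Real.log_le_log hj0 k1
      _ = 2 * Real.log (Real.log n) := by
        rw [Real.log_pow]
        norm_num
  have hmax : max 1 (A * Real.log j) ≤ (1 + 2 * A) * Real.log (Real.log n) := by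
    apply max_le
    · nlinarith
    · nlinarith
  have e1 : max 1 (A * Real.log j) ^ (5 / 96 : ℝ) ≤
      (1 + 2 * A) ^ (5 / 96 : ℝ) * Real.log (Real.log n) ^ (5 / 96 : ℝ) := by
    rw [← Real.mul_rpow (by positivity) (by linarith)]
    exact Real.rpow_le_rpow (le_trans zero_le_one (le_max_left _ _)) hmax (by norm_num)
  have e2 : ((2 ^ j : ℕ) : ℝ) ^ (91 / 48 : ℝ) ≤ 4 * (n : ℝ) ^ (91 / 48 : ℝ) := by
    calc ((2 ^ j : ℕ) : ℝ) ^ (91 / 48 : ℝ) ≤ (2 * (n : ℝ)) ^ (91 / 48 : ℝ) := by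
          apply Real.rpow_le_rpow (by positivity) _ (by norm_num)
          exact_mod_cast hpow
      _ = 2 ^ (91 / 48 : ℝ) * (n : ℝ) ^ (91 / 48 : ℝ) := Real.mul_rpow (by norm_num) hn0.le
      _ ≤ 2 ^ (2 : ℝ) * (n : ℝ) ^ (91 / 48 : ℝ) := by
          apply mul_le_mul_of_nonneg_right _ (by positivity)
          exact Real.rpow_le_rpow_of_exponent_le (by norm_num) (by norm_num)
      _ = _ := by norm_num
  calc max 1 (A * Real.log j) ^ (5 / 96 : ℝ) * ((2 ^ j : ℕ) : ℝ) ^ (91 / 48 : ℝ)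
      ≤ ((1 + 2 * A) ^ (5 / 96 : ℝ) * Real.log (Real.log n) ^ (5 / 96 : ℝ)) *
        (4 * (n : ℝ) ^ (91 / 48 : ℝ)) := by
        apply mul_le_mul e1 e2 (by positivity)
        have : 0 ≤ Real.log (Real.log n) := by linarith
        positivity
    _ = _ := by unfold gn; ring

theorem lil_upper (hAr : ArS) : ∃ C : ℝ, 0 < C ∧ ∀ ν : Measure Om, IsIIC ν →
    ∀ᵐ ω ∂ν, ∀ᶠ n : ℕ in atTop, ¬ Vn n (C * gn n) (opn ω) := by
  obtain ⟨c1, C1, hc1, hC1, h1⟩ := iic_upper hAr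
  set A : ℝ := 2 / c1 with hA
  have hA0 : 0 < A := by positivity
  refine ⟨4 * (1 + 2 * A) ^ (5 / 96 : ℝ), by positivity, fun ν hν => ?_⟩
  haveI := hν.1
  set X : ℕ → ℝ := fun j => max 1 (A * Real.log j) ^ (5 / 96 : ℝ) with hX
  set s : ℕ → Set Om := fun j =>
    {ω | Vn (2 ^ (j + 1)) (X (j + 1) * ((2 ^ (j + 1) : ℕ) : ℝ) ^ (91 / 48 : ℝ)) (opn ω)} with hs
  have hb : ∀ j, ν.real (s j) ≤ C1 * (1 / ((j + 1 : ℕ) : ℝ) ^ 2) := by
    intro j
    have hX1 : 1 ≤ X (j + 1) := Real.one_le_rpow (le_max_left _ _) (by norm_num)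
    refine (h1 ν hν (2 ^ (j + 1)) Nat.one_le_two_pow _ hX1).trans ?_
    apply mul_le_mul_of_nonneg_left _ hC1.le
    have hj : (1 : ℝ) ≤ ((j + 1 : ℕ) : ℝ) := by exact_mod_cast Nat.succ_pos j
    have e1 : X (j + 1) ^ (96 / 5 : ℝ) = max 1 (A * Real.log ((j + 1 : ℕ) : ℝ)) := by
      rw [hX]
      simp only
      rw [← Real.rpow_mul (le_trans zero_le_one (le_max_left _ _))]
      norm_num
    rw [e1]
    have e2 : (1 : ℝ) / ((j + 1 : ℕ) : ℝ) ^ 2 =
        Real.exp (-(c1 * (A * Real.log ((j + 1 : ℕ) : ℝ)))) := by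
      have : -(c1 * (A * Real.log ((j + 1 : ℕ) : ℝ))) = -(Real.log (((j + 1 : ℕ) : ℝ) ^ 2)) := by
        rw [Real.log_pow, hA]
        field_simp
        push_cast
        ring
      rw [this, Real.exp_neg, Real.exp_log (by positivity), one_div]
    rw [e2]
    apply Real.exp_le_exp.mpr
    have := mul_le_mul_of_nonneg_left
      (le_max_right 1 (A * Real.log ((j + 1 : ℕ) : ℝ))) hc1.le
    linarith
  have hsum : ∑' j, ν (s j) ≠ ⊤ := by
    have h2 : Summable (fun j : ℕ => C1 * (1 / ((j + 1 : ℕ) : ℝ) ^ 2)) := by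
      apply Summable.mul_left
      exact (summable_nat_add_iff (f := fun n : ℕ => (1 : ℝ) / (n : ℝ) ^ 2) 1).mpr
        (Real.summable_one_div_nat_pow.mpr (by norm_num))
    refine ne_top_of_le_ne_top h2.tsum_ofReal_ne_top (ENNReal.tsum_le_tsum fun j => ?_)
    rw [← ENNReal.ofReal_toReal (measure_ne_top ν (s j))]
    exact ENNReal.ofReal_le_ofReal (hb j)
  filter_upwards [ae_eventually_notMem hsum] with ω hω
  have hcl : Tendsto (fun n : ℕ => Nat.clog 2 n - 1) atTop atTop := by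
    rw [tendsto_atTop]
    intro b
    filter_upwards [eventually_ge_atTop (2 ^ (b + 1) + 1)] with n hn
    have h3 : b + 1 < Nat.clog 2 n := by
      rw [Nat.lt_clog_iff_pow_lt (by norm_num)]
      omega
    omega
  filter_upwards [hcl.eventually hω, upper_arith hA0, eventually_ge_atTop 2] with n h3 h4 hn2 h5
  apply h3
  have hj1 : 1 ≤ Nat.clog 2 n := Nat.clog_pos (by norm_num) hn2
  have e : Nat.clog 2 n - 1 + 1 = Nat.clog 2 n := by omega
  show Vn (2 ^ (Nat.clog 2 n - 1 + 1))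
    (X (Nat.clog 2 n - 1 + 1) * ((2 ^ (Nat.clog 2 n - 1 + 1) : ℕ) : ℝ) ^ (91 / 48 : ℝ)) (opn ω)
  rw [e]
  exact (h5.anti h4).mono_n (Nat.le_pow_clog (by norm_num) n)

/-! ### lower bound -/

theorem pr_GH_none {I : Finset ℕ} {N m K : ℕ → ℕ} {a : ℝ} {U : Finset Edg}
    (hU : ∀ i ∈ I, An (N i) ⊆ U)
    (hd : ∀ i ∈ I, ∀ j ∈ I, i ≠ j → Disjoint (An (N i)) (An (N j))) :
    Pr P U (fun F => ∀ i ∈ I, ¬ GH (N i) (m i) (K i) a F) =
      ∏ i ∈ I, (1 - Pr P (An (N i)) (GG (N i) (m i) (K i) a)) := by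
  have h := indep_prod (p := P) (U := U) I (fun i F => ¬ GH (N i) (m i) (K i) a F)
    (fun i => An (N i)) hU hd (fun i _ F => not_congr (GH_loc F))
  rw [h]
  apply Finset.prod_congr rfl
  intro i hi
  rw [Pr_not, pr_GH (hU i hi)]

theorem An_disj {i j : ℕ} (h : i ≠ j) : Disjoint (An (5 ^ i)) (An (5 ^ j)) := by
  have key : ∀ i j : ℕ, i < j → Disjoint (An (5 ^ i)) (An (5 ^ j)) := by
    intro i j hij
    rw [Finset.disjoint_left]
    intro e h1 h2
    rw [mem_An] at h1 h2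
    apply h2.2
    refine boxE_mono ?_ h1.1
    calc 5 * 5 ^ i = 5 ^ (i + 1) := by ring
      _ ≤ 5 ^ j := Nat.pow_le_pow_right (by norm_num) hij
  rcases Nat.lt_or_gt_of_ne h with h | h
  · exact key i j h
  · exact (key j i h).symm

theorem GH_change {n m K : ℕ} {a : ℝ} {M M' : ℕ} {ω : Om} (h1 : 5 * n ≤ M) (h2 : 5 * n ≤ M')
    (h : GH n m K a (FF (boxE M) ω)) : GH n m K a (FF (boxE M') ω) := by
  have e : FF (boxE M) ω ∩ An n = FF (boxE M') ω ∩ An n := by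
    ext e
    simp only [Finset.mem_inter, mem_FF]
    constructor
    · rintro ⟨⟨-, k1⟩, k2⟩
      exact ⟨⟨boxE_mono h2 (An_sub n k2), k1⟩, k2⟩
    · rintro ⟨⟨-, k1⟩, k2⟩
      exact ⟨⟨boxE_mono h1 (An_sub n k2), k1⟩, k2⟩
  unfold GH at h ⊢
  rwa [← e]

theorem lil_lower (hAr : ArSharp) : ∃ c : ℝ, 0 < c ∧ ∀ ν : Measure Om, IsIIC ν →
    ∀ᵐ ω ∂ν, ∃ᶠ n : ℕ in atTop, Vn n (c * gn n) (opn ω) := by
  obtain ⟨a, c0, ha, hc0, hc01, hg⟩ := gg_prob
  obtain ⟨a1, ha1, hvol⟩ := grid_volume hAr ha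
  have hlog : 0 < -Real.log c0 := by
    have := Real.log_neg hc0 hc01
    linarith
  obtain ⟨κ, hκ⟩ : ∃ κ : ℝ, κ = 1 / (4 * -Real.log c0) := ⟨_, rfl⟩
  have hκ0 : 0 < κ := by rw [hκ]; positivity
  refine ⟨a1 * κ ^ (5 / 96 : ℝ) / 32, by positivity, fun ν hν => ?_⟩
  haveI := hν.1
  set K : ℕ → ℕ := fun i => ⌊(κ * Real.log i) ^ (1 / 2 : ℝ)⌋₊ + 1 with hK
  set m : ℕ → ℕ := fun i => 5 ^ i / (2 * K i + 1) with hm
  have hKlow : ∀ i : ℕ, (κ * Real.log i) ^ (1 / 2 : ℝ) ≤ K i := by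
    intro i
    rw [hK]
    push_cast
    exact (Nat.lt_floor_add_one _).le
  have hLi : ∀ i : ℕ, 0 ≤ Real.log i := fun i => Real.log_natCast_nonneg i
  have hKup : ∀ i : ℕ, (K i : ℝ) ≤ (κ * Real.log i) ^ (1 / 2 : ℝ) + 1 := by
    intro i
    rw [hK]
    push_cast
    have := hLi i
    have := Nat.floor_le (a := (κ * Real.log i) ^ (1 / 2 : ℝ)) (by positivity)
    linarith
  have hK1 : ∀ i, 1 ≤ K i := fun i => by rw [hK]; simp
  -- probability
  have hpow : ∀ i : ℕ, 1 ≤ i → c0 ^ 2 * (i : ℝ) ^ (-(1 / 2 : ℝ)) ≤ c0 ^ (K i ^ 2) := by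
    intro i hi
    have hi0 : (0 : ℝ) < i := by exact_mod_cast hi
    have k0 : 0 ≤ κ * Real.log i := by have := hLi i; positivity
    have k1 : ((K i ^ 2 : ℕ) : ℝ) ≤ 2 * (κ * Real.log i) + 2 := by
      have e1 : ((κ * Real.log i) ^ (1 / 2 : ℝ)) ^ 2 = κ * Real.log i := by
        rw [← Real.rpow_natCast, ← Real.rpow_mul k0]
        norm_num
      have k2 := hKup i
      have k3 : (0 : ℝ) ≤ (κ * Real.log i) ^ (1 / 2 : ℝ) := by positivity
      have k4 : (0 : ℝ) ≤ (K i : ℝ) := Nat.cast_nonneg _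
      push_cast
      nlinarith [sq_nonneg ((κ * Real.log i) ^ (1 / 2 : ℝ) - 1)]
    refine le_trans (le_of_eq ?_) (exp_le_pow hc0 hc01 k1)
    have e2 : -(-Real.log c0 * (2 * (κ * Real.log i) + 2)) =
        Real.log c0 * 2 + Real.log i * (-(1 / 2)) := by
      rw [hκ]
      have : Real.log c0 ≠ 0 := by linarith
      field_simp
      ring
    rw [e2, Real.exp_add, Real.exp_mul, Real.exp_log hc0, Real.rpow_def_of_pos hi0]
    congr 1
    norm_num
  obtain ⟨i0, hi0⟩ : ∃ i0 : ℕ, ∀ i, i0 ≤ i → 1 ≤ i ∧ 2 * K i + 1 ≤ 5 ^ i := by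
    refine ⟨⌈2 * κ⌉₊ + 5, fun i hi => ⟨by omega, ?_⟩⟩
    have h1 : i ^ 2 ≤ 5 ^ i := by
      have h2 : ∀ i : ℕ, i ^ 2 ≤ 5 ^ i := by
        intro i
        induction i with
        | zero => norm_num
        | succ k ih =>
          rcases Nat.eq_zero_or_pos k with rfl | hk
          · norm_num
          · rw [pow_succ 5 k]
            nlinarith
      exact h2 i
    refine le_trans ?_ h1
    have hi' : 2 * κ + 5 ≤ (i : ℝ) := by
      calc 2 * κ + 5 ≤ (⌈2 * κ⌉₊ : ℝ) + 5 := by linarith [Nat.le_ceil (2 * κ)]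
        _ ≤ i := by exact_mod_cast hi
    have h3 : (K i : ℝ) ≤ κ * i + 2 := by
      have k0 : 0 ≤ κ * Real.log i := by have := hLi i; positivity
      have k1 : (κ * Real.log i) ^ (1 / 2 : ℝ) ≤ κ * Real.log i + 1 := by
        rw [← Real.sqrt_eq_rpow]
        have := Real.sqrt_nonneg (κ * Real.log i)
        have := Real.sq_sqrt k0
        nlinarith [sq_nonneg (Real.sqrt (κ * Real.log i) - 1)]
      have k2 : Real.log i ≤ i := by
        rcases Nat.eq_zero_or_pos i with rfl | hip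
        · simp
        · have : (0 : ℝ) < i := by exact_mod_cast hip
          have := Real.log_le_sub_one_of_pos this
          linarith
      have := hKup i
      have := mul_le_mul_of_nonneg_left k2 hκ0.le
      linarith
    have h4 : 2 * (K i : ℝ) + 1 ≤ (i : ℝ) ^ 2 := by nlinarith
    exact_mod_cast h4
  have hp : ∀ i, i0 ≤ i → c0 ^ 2 * (i : ℝ) ^ (-(1 / 2 : ℝ)) ≤
      Pr P (An (5 ^ i)) (GG (5 ^ i) (m i) (K i) a) := by
    intro i hi
    obtain ⟨k1, k2⟩ := hi0 i hi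
    obtain ⟨l1, l2, l3⟩ := mesh k2
    exact (hpow i k1).trans (hg (5 ^ i) (m i) (K i) l1 (hK1 i) l2 (l3 (hK1 i)).1)
  -- the event at some scale
  set D : ℕ → Set Om := fun b => {ω | ∃ i, b ≤ i ∧ GH (5 ^ i) (m i) (K i) a
    (FF (boxE (5 * 5 ^ i)) ω)} with hD
  have hDm : ∀ b, MeasurableSet (D b) := by
    intro b
    have e : D b = ⋃ i : ℕ, {ω | b ≤ i ∧ GH (5 ^ i) (m i) (K i) a (FF (boxE (5 * 5 ^ i)) ω)} := by
      ext ω
      simp only [hD, Set.mem_iUnion, Set.mem_ofPred_eq]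
    rw [e]
    refine MeasurableSet.iUnion (fun i => ?_)
    exact meas_event (boxE (5 * 5 ^ i)) (fun F => b ≤ i ∧ GH (5 ^ i) (m i) (K i) a F)
  have hD1 : ∀ b, i0 ≤ b → ∀ B, b ≤ B →
      1 - Real.exp (-(c0 ^ 2 * ((B - b : ℕ) : ℝ) * (B : ℝ) ^ (-(1 / 2 : ℝ)))) ≤ ν.real (D b) := by
    intro b hb B hbB
    set I := Finset.Ico b B with hI
    have hU : ∀ i ∈ I, An (5 ^ i) ⊆ boxE (5 ^ B) := by
      intro i hi
      rw [hI, Finset.mem_Ico] at hi
      refine (An_sub _).trans (boxE_mono ?_)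
      calc 5 * 5 ^ i = 5 ^ (i + 1) := by ring
        _ ≤ 5 ^ B := Nat.pow_le_pow_right (by norm_num) hi.2
    have h1 := pr_GH_none (I := I) (N := fun i => 5 ^ i) (m := m) (K := K) (a := a) hU
      (fun i _ j _ hij => An_disj hij)
    have h2 : ∏ i ∈ I, (1 - Pr P (An (5 ^ i)) (GG (5 ^ i) (m i) (K i) a)) ≤
        Real.exp (-(c0 ^ 2 * ((B - b : ℕ) : ℝ) * (B : ℝ) ^ (-(1 / 2 : ℝ)))) := by
      calc ∏ i ∈ I, (1 - Pr P (An (5 ^ i)) (GG (5 ^ i) (m i) (K i) a))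
          ≤ ∏ i ∈ I, Real.exp (-(c0 ^ 2 * (B : ℝ) ^ (-(1 / 2 : ℝ)))) := by
            apply Finset.prod_le_prod
            · intro i _
              have := Pr_le_one w_ok (An (5 ^ i)) (GG (5 ^ i) (m i) (K i) a)
              linarith
            · intro i hi
              rw [hI, Finset.mem_Ico] at hi
              have k1 := hp i (hb.trans hi.1)
              have k2 : (B : ℝ) ^ (-(1 / 2 : ℝ)) ≤ (i : ℝ) ^ (-(1 / 2 : ℝ)) := by
                have hi1 := (hi0 i (hb.trans hi.1)).1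
                apply Real.rpow_le_rpow_of_nonpos (by exact_mod_cast hi1) _ (by norm_num)
                exact_mod_cast hi.2.le
              have k3 := Real.add_one_le_exp (-(c0 ^ 2 * (B : ℝ) ^ (-(1 / 2 : ℝ))))
              have k4 := mul_le_mul_of_nonneg_left k2 (sq_nonneg c0)
              linarith
        _ = Real.exp (-(c0 ^ 2 * ((B - b : ℕ) : ℝ) * (B : ℝ) ^ (-(1 / 2 : ℝ)))) := by
            rw [Finset.prod_const, hI, Nat.card_Ico, ← Real.exp_nat_mul]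
            congr 1
            ring
    have h3 := hν.lower (boxE (5 ^ B)) (Q := fun F => ∃ i ∈ I, GH (5 ^ i) (m i) (K i) a F)
      (by
        rintro F G h ⟨i, hi, hF⟩
        exact ⟨i, hi, hF.mono h⟩)
    have h4 : Pr P (boxE (5 ^ B)) (fun F => ∃ i ∈ I, GH (5 ^ i) (m i) (K i) a F) =
        1 - Pr P (boxE (5 ^ B)) (fun F => ∀ i ∈ I, ¬ GH (5 ^ i) (m i) (K i) a F) := by
      rw [← Pr_not]
      apply Pr_congr
      intro F _
      push Not
      rfl
    rw [h4, h1] at h3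
    refine le_trans (by linarith) (h3.trans (measureReal_mono ?_))
    rintro ω ⟨i, hi, hF⟩
    rw [hI, Finset.mem_Ico] at hi
    refine ⟨i, hi.1, GH_change ?_ le_rfl hF⟩
    calc 5 * 5 ^ i = 5 ^ (i + 1) := by ring
      _ ≤ 5 ^ B := Nat.pow_le_pow_right (by norm_num) hi.2
  have hD2 : ∀ b, i0 ≤ b → ν.real (D b) = 1 := by
    intro b hb
    apply le_antisymm measureReal_le_one
    have h1 : Tendsto (fun B : ℕ => 1 - Real.exp (-(c0 ^ 2 * ((B - b : ℕ) : ℝ) *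
        (B : ℝ) ^ (-(1 / 2 : ℝ))))) atTop (𝓝 (1 - 0)) := by
      apply Tendsto.const_sub
      apply Real.tendsto_exp_neg_atTop_nhds_zero.comp
      have h2 : Tendsto (fun B : ℕ => c0 ^ 2 / 2 * (B : ℝ) ^ (1 / 2 : ℝ)) atTop atTop := by
        apply Tendsto.const_mul_atTop (by positivity)
        exact (tendsto_rpow_atTop (by norm_num)).comp tendsto_natCast_atTop_atTop
      refine tendsto_atTop_mono' _ ?_ h2
      filter_upwards [eventually_ge_atTop (2 * b + 1)] with B hB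
      have hB0 : (0 : ℝ) < B := by exact_mod_cast (by omega : 0 < B)
      have e1 : (B : ℝ) ^ (1 / 2 : ℝ) = B * (B : ℝ) ^ (-(1 / 2 : ℝ)) := by
        rw [mul_comm, ← Real.rpow_add_one hB0.ne']
        norm_num
      have e2 : (B : ℝ) / 2 ≤ ((B - b : ℕ) : ℝ) := by
        have : B ≤ 2 * (B - b) := by omega
        have : (B : ℝ) ≤ 2 * ((B - b : ℕ) : ℝ) := by exact_mod_cast this
        linarith
      rw [e1]
      have e3 : (0 : ℝ) ≤ (B : ℝ) ^ (-(1 / 2 : ℝ)) := by positivity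
      calc c0 ^ 2 / 2 * (B * (B : ℝ) ^ (-(1 / 2 : ℝ))) =
          c0 ^ 2 * ((B : ℝ) / 2) * (B : ℝ) ^ (-(1 / 2 : ℝ)) := by ring
        _ ≤ _ := by
          apply mul_le_mul_of_nonneg_right _ e3
          exact mul_le_mul_of_nonneg_left e2 (sq_nonneg c0)
    rw [sub_zero] at h1
    refine le_of_tendsto h1 ?_
    filter_upwards [eventually_ge_atTop b] with B hB
    exact hD1 b hb B hB
  have hDae : ∀ᵐ ω ∂ν, ∀ b, i0 ≤ b → ω ∈ D b := by
    rw [ae_all_iff]
    intro b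
    by_cases hb : i0 ≤ b
    · have h1 : ν (D b)ᶜ = 0 := by
        have h2 : ν.real (D b)ᶜ = 0 := by
          rw [probReal_compl_eq_one_sub (hDm b), hD2 b hb, sub_self]
        exact (measureReal_eq_zero_iff (measure_ne_top _ _)).mp h2
      have h2 : ∀ᵐ ω ∂ν, ω ∈ D b := h1
      filter_upwards [h2] with ω hω _
      exact hω
    · exact Eventually.of_forall fun ω h => absurd h hb
  have hFae : ∀ᵐ ω ∂ν, ∀ N, FarS N (opn ω) := by
    rw [ae_all_iff]
    intro N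
    have h2 : ν.real {ω : Om | FarS N (opn ω)}ᶜ = 0 := by
      rw [probReal_compl_eq_one_sub (meas_inc (inc_far N)), hν.far N, sub_self]
    exact (measureReal_eq_zero_iff (measure_ne_top _ _)).mp h2
  filter_upwards [hDae, hFae] with ω h1 h2
  have hfr : ∃ᶠ i : ℕ in atTop, i0 ≤ i ∧
      GH (5 ^ i) (m i) (K i) a (FF (boxE (5 * 5 ^ i)) ω) := by
    rw [frequently_atTop]
    intro b
    obtain ⟨i, hi, hG⟩ := h1 (max b i0) (le_max_right _ _)
    exact ⟨i, (le_max_left _ _).trans hi, (le_max_right _ _).trans hi, hG⟩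
  have hN : Tendsto (fun i : ℕ => 4 * 5 ^ i) atTop atTop := by
    apply Tendsto.const_mul_atTop' (by norm_num)
    exact tendsto_pow_atTop_atTop_of_one_lt (by norm_num)
  refine hN.frequently ?_
  refine (hfr.and_eventually (eventually_ge_atTop 3)).mono ?_
  rintro i ⟨⟨hi, hG⟩, hi3⟩
  obtain ⟨k1, k2⟩ := hi0 i hi
  obtain ⟨l1, l2, l3⟩ := mesh k2
  have hvn := GH_vn l1 l2 (M := 5 * 5 ^ i) (by omega) hG (h2 _)
  refine hvn.anti (le_trans ?_ (hvol (5 ^ i) (m i) (K i) l1 (hK1 i) (l3 (hK1 i)).2))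
  -- arithmetic
  have hi0' : (0 : ℝ) < i := by exact_mod_cast k1
  have hi3' : (3 : ℝ) ≤ i := by exact_mod_cast hi3
  have hlogi : 0 ≤ Real.log i := hLi i
  have hlogi1 : 0 < Real.log i := Real.log_pos (by linarith)
  have e1 : (κ * Real.log i) ^ (5 / 96 : ℝ) ≤ (K i : ℝ) ^ (5 / 48 : ℝ) := by
    have := Real.rpow_le_rpow (z := (5 / 48 : ℝ)) (by positivity) (hKlow i) (by norm_num)
    rw [← Real.rpow_mul (by positivity)] at this
    norm_num at this ⊢
    exact this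
  have e2 : Real.log (((4 * 5 ^ i : ℕ) : ℝ)) ≤ (i : ℝ) ^ 2 := by
    push_cast
    rw [Real.log_mul (by norm_num) (by positivity), Real.log_pow]
    have l4 : Real.log 4 ≤ 3 := by
      have := Real.log_le_sub_one_of_pos (show (0 : ℝ) < 4 by norm_num)
      linarith
    have l5 : Real.log 5 ≤ 2 := by
      have h5 : (5 : ℝ) ≤ Real.exp 2 := by
        have h6 : (1 + 1 + 1 / 2 : ℝ) ≤ Real.exp 1 := by
          have := Real.quadratic_le_exp_of_nonneg (x := 1) (by norm_num)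
          linarith
        have h7 : Real.exp 2 = Real.exp 1 * Real.exp 1 := by
          rw [← Real.exp_add]; norm_num
        rw [h7]
        nlinarith
      calc Real.log 5 ≤ Real.log (Real.exp 2) := Real.log_le_log (by norm_num) h5
        _ = 2 := Real.log_exp 2
    nlinarith
  have e3 : 1 ≤ Real.log (((4 * 5 ^ i : ℕ) : ℝ)) := by
    push_cast
    rw [Real.log_mul (by norm_num) (by positivity), Real.log_pow]
    have l4 : 0 ≤ Real.log 4 := Real.log_nonneg (by norm_num)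
    have l5 : 1 ≤ Real.log 5 := by
      rw [Real.le_log_iff_exp_le (by norm_num)]
      have := Real.exp_one_lt_d9
      linarith
    nlinarith
  have e4 : Real.log (Real.log (((4 * 5 ^ i : ℕ) : ℝ))) ≤ 2 * Real.log i := by
    calc Real.log (Real.log (((4 * 5 ^ i : ℕ) : ℝ))) ≤ Real.log ((i : ℝ) ^ 2) :=
          Real.log_le_log (by linarith) e2
      _ = 2 * Real.log i := by rw [Real.log_pow]; norm_num
  have e5 : Real.log (Real.log (((4 * 5 ^ i : ℕ) : ℝ))) ^ (5 / 96 : ℝ) ≤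
      2 * Real.log i ^ (5 / 96 : ℝ) := by
    calc Real.log (Real.log (((4 * 5 ^ i : ℕ) : ℝ))) ^ (5 / 96 : ℝ)
        ≤ (2 * Real.log i) ^ (5 / 96 : ℝ) :=
          Real.rpow_le_rpow (Real.log_nonneg e3) e4 (by norm_num)
      _ = 2 ^ (5 / 96 : ℝ) * Real.log i ^ (5 / 96 : ℝ) := Real.mul_rpow (by norm_num) hlogi
      _ ≤ 2 ^ (1 : ℝ) * Real.log i ^ (5 / 96 : ℝ) := by
          apply mul_le_mul_of_nonneg_right _ (by positivity)
          exact Real.rpow_le_rpow_of_exponent_le (by norm_num) (by norm_num)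
      _ = _ := by rw [Real.rpow_one]
  have e6 : (((4 * 5 ^ i : ℕ) : ℝ)) ^ (91 / 48 : ℝ) ≤ 16 * ((5 ^ i : ℕ) : ℝ) ^ (91 / 48 : ℝ) := by
    calc (((4 * 5 ^ i : ℕ) : ℝ)) ^ (91 / 48 : ℝ) = (4 * ((5 ^ i : ℕ) : ℝ)) ^ (91 / 48 : ℝ) := by
          push_cast; rfl
      _ = 4 ^ (91 / 48 : ℝ) * ((5 ^ i : ℕ) : ℝ) ^ (91 / 48 : ℝ) :=
          Real.mul_rpow (by norm_num) (by positivity)
      _ ≤ 4 ^ (2 : ℝ) * ((5 ^ i : ℕ) : ℝ) ^ (91 / 48 : ℝ) := by
          apply mul_le_mul_of_nonneg_right _ (by positivity)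
          exact Real.rpow_le_rpow_of_exponent_le (by norm_num) (by norm_num)
      _ = _ := by norm_num
  unfold gn
  calc a1 * κ ^ (5 / 96 : ℝ) / 32 * ((((4 * 5 ^ i : ℕ) : ℝ)) ^ (91 / 48 : ℝ) *
        Real.log (Real.log (((4 * 5 ^ i : ℕ) : ℝ))) ^ (5 / 96 : ℝ))
      ≤ a1 * κ ^ (5 / 96 : ℝ) / 32 * ((16 * ((5 ^ i : ℕ) : ℝ) ^ (91 / 48 : ℝ)) *
        (2 * Real.log i ^ (5 / 96 : ℝ))) := by
        apply mul_le_mul_of_nonneg_left _ (by positivity)
        apply mul_le_mul e6 e5 _ (by positivity)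
        exact Real.rpow_nonneg (Real.log_nonneg e3) _
    _ = a1 * ((κ ^ (5 / 96 : ℝ) * Real.log i ^ (5 / 96 : ℝ)) *
        ((5 ^ i : ℕ) : ℝ) ^ (91 / 48 : ℝ)) := by ring
    _ = a1 * ((κ * Real.log i) ^ (5 / 96 : ℝ) * ((5 ^ i : ℕ) : ℝ) ^ (91 / 48 : ℝ)) := by
        rw [Real.mul_rpow hκ0.le hlogi]
    _ ≤ _ := by
        apply mul_le_mul_of_nonneg_left _ ha1.le
        exact mul_le_mul_of_nonneg_right e1 (by positivity)

end Run7.h495.IIC
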