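import Pool.Agent.Run7.h495.IIC.Loc

/-!
Weak limits of the conditioned laws (incipient infinite clusters).
-/

set_option autoImplicit false

namespace Run7.h495.IIC
open Finset H974 Pool.Agent.H160R2.CV Pool.Agent.H160R2.CV.Quad H362P MeasureTheory
open Pool.Agent.H389R2.CD Pool.Agent.Y244.PC Filter Topology

/-- configurations -/
abbrev Om : Type := sqLattice.edgeSet → Bool

/-- a conditioning event of range at least `L` -/
def CondE (L : ℕ) (A : Set Om) : Prop :=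
  (∃ N : ℕ, L ≤ N ∧ A = {ω | FarS N (opn ω)}) ∨
    (∃ w : Vtx, L ≤ nv w ∧ A = {ω | Reach (opn ω) (0, 0) w})

/-- events which depend on finitely many edges -/
def LocalE (E : Set Om) : Prop :=
  ∃ S : Finset sqLattice.edgeSet, ∀ ω ω' : Om, (∀ e ∈ S, ω e = ω' e) → (ω ∈ E ↔ ω' ∈ E)

/-- incipient infinite cluster measures -/
def IsIIC (ν : Measure Om) : Prop :=
  IsProbabilityMeasure ν ∧ ∃ A : ℕ → Set Om, (∀ j, CondE j (A j)) ∧
    ∀ E : Set Om, LocalE E →
      Tendsto (fun j => μc.real (E ∩ A j) / μc.real (A j)) atTop (𝓝 (ν.real E))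

theorem CondE.inc {L : ℕ} {A : Set Om} (h : CondE L A) :
    ∃ R : Set Edg → Prop, Inc R ∧ A = {ω | R (opn ω)} ∧ (∀ F, R F → FarS L F) ∧
      0 < μc.real A := by
  rcases h with ⟨N, hN, rfl⟩ | ⟨w, hw, rfl⟩
  · exact ⟨FarS N, inc_far N, rfl, fun F hF => hF.anti hN, by rw [farS_prob]; exact ar_pos N⟩
  · exact ⟨fun F => Reach F (0, 0) w, inc_reach _ _, rfl, fun F hF => ⟨w, hw, hF⟩,
      reach_prob_pos w⟩

theorem local_FF (S : Finset Edg) (Q : Finset Edg → Prop) : LocalE {ω | Q (FF S ω)} := by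
  classical
  refine ⟨S.image toE, fun ω ω' h => ?_⟩
  have e : FF S ω = FF S ω' := by
    ext e
    rw [mem_FF, mem_FF]
    constructor
    · rintro ⟨h1, h2⟩
      exact ⟨h1, (h _ (Finset.mem_image_of_mem _ h1)) ▸ h2⟩
    · rintro ⟨h1, h2⟩
      exact ⟨h1, (h _ (Finset.mem_image_of_mem _ h1)).symm ▸ h2⟩
  show Q (FF S ω) ↔ Q (FF S ω')
  rw [e]

theorem exists_box (S : Finset Edg) : ∃ m : ℕ, S ⊆ boxE m := by
  classical
  have h := fun e : Edg => InfAux.edge_in_box e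
  choose f hf using h
  exact ⟨S.sup f, fun e he => boxE_mono (Finset.le_sup he) (hf e)⟩

/-- an increasing event of the configuration in `S`, as an event of sets of edges -/
def onS (S : Finset Edg) (Q : Finset Edg → Prop) (F : Set Edg) : Prop :=
  ∃ G : Finset Edg, (↑G : Set Edg) = F ∩ ↑S ∧ Q G

theorem onS_iff (S : Finset Edg) (Q : Finset Edg → Prop) (ω : Om) :
    onS S Q (opn ω) ↔ Q (FF S ω) := by
  constructor
  · rintro ⟨G, h1, h2⟩
    rw [← FF_coe, Finset.coe_inj] at h1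
    rwa [← h1]
  · intro h
    exact ⟨FF S ω, FF_coe S ω, h⟩

theorem inc_onS (S : Finset Edg) {Q : Finset Edg → Prop} (hQ : ∀ F G, F ⊆ G → Q F → Q G) :
    Inc (onS S Q) where
  mono := by
    classical
    rintro F G h ⟨H, h1, h2⟩
    refine ⟨S.filter (fun e => e ∈ G), ?_, hQ H _ ?_ h2⟩
    · ext e
      simp only [Finset.coe_filter, Set.mem_inter_iff, Finset.mem_coe]
      exact and_comm
    · intro e he
      have h3 : e ∈ (↑H : Set Edg) := he
      rw [h1] at h3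
      rw [Finset.mem_filter]
      exact ⟨h3.2, h h3.1⟩
  box := by
    rintro F ⟨H, h1, h2⟩
    obtain ⟨m, hm⟩ := exists_box S
    refine ⟨m, H, ?_, h2⟩
    rw [h1]
    ext e
    simp only [Set.mem_inter_iff, Finset.mem_coe]
    constructor
    · rintro ⟨h3, h4⟩
      exact ⟨⟨h3, hm h4⟩, h4⟩
    · rintro ⟨⟨h3, -⟩, h4⟩
      exact ⟨h3, h4⟩

section limit
variable {ν : Measure Om}

/-- the limit dominates the critical law on increasing events -/
theorem IsIIC.lower (h : IsIIC ν) (S : Finset Edg) {Q : Finset Edg → Prop}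
    (hQ : ∀ F G, F ⊆ G → Q F → Q G) : Pr P S Q ≤ ν.real {ω | Q (FF S ω)} := by
  obtain ⟨-, A, hA, hlim⟩ := h
  have h1 := hlim _ (local_FF S Q)
  refine ge_of_tendsto' h1 (fun j => ?_)
  obtain ⟨R, hR, hAR, -, hpos⟩ := (hA j).inc
  rw [le_div_iff₀ hpos]
  have h2 := (inc_onS S hQ).harris hR
  have e1 : {ω : Om | onS S Q (opn ω)} = {ω | Q (FF S ω)} := by
    ext ω
    exact onS_iff S Q ω
  have e2 : {ω : Om | Q (FF S ω)} ∩ A j = {ω | onS S Q (opn ω) ∧ R (opn ω)} := by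
    rw [hAR]
    ext ω
    simp only [Set.mem_inter_iff, Set.mem_ofPred_eq, onS_iff]
  have e3 : μc.real {ω | Q (FF S ω)} = Pr P S Q := law_event hlf S Q
  rw [e2, ← e3, ← e1, hAR]
  exact h2

theorem farS_armE {N : ℕ} {ω : Om} : FarS N (opn ω) ↔ Arm N (FF (boxE N) ω) := by
  have h0 : Arm N (FF (boxE N) ω) ↔ ∃ v, onB N v ∧ Reach (opn ω ∩ ↑(boxE N)) (0, 0) v :=
    armE_iff (n := N) (ω := ω)
  rw [h0]
  constructor
  · rintro ⟨u, h1, h2⟩
    obtain ⟨w, k1, k2, k3⟩ := first_exit (a := -(N : ℤ)) (b := N) (c := -(N : ℤ)) (d := N)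
      (u := (0, 0)) (v := u) (by unfold inR; simp) h2 (by unfold nv at h1; omega)
    exact ⟨w, ⟨k1, k2⟩, k3⟩
  · rintro ⟨v, h1, h2⟩
    refine ⟨v, ?_, h2.mono Set.inter_subset_left⟩
    unfold onB inR at h1
    unfold nv
    omega

theorem IsIIC.far (h : IsIIC ν) (N : ℕ) : ν.real {ω | FarS N (opn ω)} = 1 := by
  obtain ⟨hν, A, hA, hlim⟩ := h
  have hl : LocalE {ω : Om | FarS N (opn ω)} := by
    have e : {ω : Om | FarS N (opn ω)} = {ω | Arm N (FF (boxE N) ω)} := by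
      ext ω
      exact farS_armE
    rw [e]
    exact local_FF _ _
  have h1 := hlim _ hl
  refine tendsto_nhds_unique h1 (tendsto_const_nhds.congr' ?_)
  filter_upwards [eventually_ge_atTop N] with j hj
  obtain ⟨R, -, hAR, hfar, hpos⟩ := (hA j).inc
  have e : {ω : Om | FarS N (opn ω)} ∩ A j = A j := by
    rw [Set.inter_eq_right, hAR]
    intro ω hω
    exact (hfar _ hω).anti hj
  rw [e, div_self hpos.ne']

/-- upper bounds pass to the limit -/
theorem IsIIC.upper (h : IsIIC ν) {Q : Set Edg → Prop} (hQ : Inc Q) {q : ℝ} {L : ℕ}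
    (hb : ∀ A : Set Om, CondE L A → μc.real ({ω | Q (opn ω)} ∩ A) ≤ q * μc.real A) :
    ν.real {ω | Q (opn ω)} ≤ q := by
  obtain ⟨hν, A, hA, hlim⟩ := h
  have e : {ω : Om | Q (opn ω)} = ⋃ m : ℕ, {ω | Q (opn ω ∩ ↑(boxE m))} := by
    ext ω
    rw [Set.mem_iUnion]
    constructor
    · intro hω
      exact hQ.box _ hω
    · rintro ⟨m, hm⟩
      exact hQ.mono _ _ Set.inter_subset_left hm
  have hm : Monotone (fun m : ℕ => {ω : Om | Q (opn ω ∩ ↑(boxE m))}) := by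
    intro m m' hmm ω hω
    exact hQ.mono _ _ (Set.inter_subset_inter_right _ (InfAux.boxE_coe_mono hmm)) hω
  have h1 := tendsto_measure_iUnion_atTop (μ := ν) hm
  rw [← e] at h1
  have h2 : Tendsto (fun m : ℕ => ν.real {ω : Om | Q (opn ω ∩ ↑(boxE m))}) atTop
      (𝓝 (ν.real {ω | Q (opn ω)})) :=
    (ENNReal.tendsto_toReal (measure_ne_top _ _)).comp h1
  refine le_of_tendsto' h2 (fun m => ?_)
  have hl : LocalE {ω : Om | Q (opn ω ∩ ↑(boxE m))} := by
    have e1 : {ω : Om | Q (opn ω ∩ ↑(boxE m))} =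
        {ω | (fun F : Finset Edg => Q ↑F) (FF (boxE m) ω)} := by
      ext ω
      simp only [Set.mem_ofPred_eq, FF_coe]
    rw [e1]
    exact local_FF (boxE m) (fun F : Finset Edg => Q ↑F)
  refine le_of_tendsto (hlim _ hl) ?_
  filter_upwards [eventually_ge_atTop L] with j hj
  have hAj : CondE L (A j) := by
    rcases hA j with ⟨N, hN, h4⟩ | ⟨w, hw, h4⟩
    · exact Or.inl ⟨N, hj.trans hN, h4⟩
    · exact Or.inr ⟨w, hj.trans hw, h4⟩
  obtain ⟨R, -, -, -, hpos⟩ := hAj.inc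
  rw [div_le_iff₀ hpos]
  refine le_trans (measureReal_mono ?_) (hb _ hAj)
  rintro ω ⟨h5, h6⟩
  exact ⟨hQ.mono _ _ Set.inter_subset_left h5, h6⟩

end limit

/-- **the upper tail of the volume of the incipient infinite cluster** -/
theorem iic_upper (hAr : ArS) : ∃ c C : ℝ, 0 < c ∧ 0 < C ∧ ∀ ν : Measure Om, IsIIC ν →
    ∀ n : ℕ, 1 ≤ n → ∀ x : ℝ, 1 ≤ x →
    ν.real {ω | Vn n (x * (n : ℝ) ^ (91 / 48 : ℝ)) (opn ω)} ≤
      C * Real.exp (-(c * x ^ (96 / 5 : ℝ))) := by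
  obtain ⟨c1, C1, hc1, hC1, h1⟩ := tail_w hAr
  obtain ⟨c2, C2, hc2, hC2, h2⟩ := tail_far hAr
  refine ⟨min c1 c2, max C1 C2, lt_min hc1 hc2, lt_max_of_lt_left hC1, fun ν hν n hn x hx => ?_⟩
  refine hν.upper (inc_vn n _) (L := 3 * n) (fun A hA => ?_)
  have hx0 : 0 ≤ x ^ (96 / 5 : ℝ) := by positivity
  have key : ∀ c C : ℝ, 0 < C → min c1 c2 ≤ c → C ≤ max C1 C2 →
      C * Real.exp (-(c * x ^ (96 / 5 : ℝ))) * μc.real A ≤
      max C1 C2 * Real.exp (-(min c1 c2 * x ^ (96 / 5 : ℝ))) * μc.real A := by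
    intro c C hC hc hCC
    apply mul_le_mul_of_nonneg_right _ measureReal_nonneg
    apply mul_le_mul hCC _ (Real.exp_pos _).le (hC.le.trans hCC)
    apply Real.exp_le_exp.mpr
    have := mul_le_mul_of_nonneg_right hc hx0
    linarith
  rcases hA with ⟨N, hN, rfl⟩ | ⟨w, hw, rfl⟩
  · refine le_trans ?_ (key c2 C2 hC2 (min_le_right _ _) (le_max_right _ _))
    exact h2 n hn N hN x hx
  · refine le_trans ?_ (key c1 C1 hC1 (min_le_left _ _) (le_max_left _ _))
    exact h1 n hn w hw x hx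

end Run7.h495.IIC
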