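import Pool.Agent.Y244.PC.Tails
import Pool.Agent.Run7.h495.IIC.Cmp

/-!
Local increasing events in annuli which force the cluster of the origin to be large.
-/

set_option autoImplicit false

namespace Run7.h495.IIC
open Finset H974 Pool.Agent.H160R2.CV Pool.Agent.H160R2.CV.Quad H362P MeasureTheory
open Pool.Agent.H389R2.CD Pool.Agent.Y244.PC Filter Topology

/-- the grid and the counts -/
def G0 (n m K : ℕ) (a : ℝ) (F : Finset Edg) : Prop :=
  Grid n m K F ∧ ∀ q ∈ range K ×ˢ range K, CtAt (cen n m q.1 q.2) a m F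

theorem G0.mono {n m K : ℕ} {a : ℝ} {F G : Finset Edg} (h : F ⊆ G) (hF : G0 n m K a F) :
    G0 n m K a G :=
  ⟨⟨fun i hi => (hF.1.1 i hi).mono h, fun i hi => (hF.1.2 i hi).mono h⟩,
    fun q hq => CtAt_incr G _ _ _ F G h (Finset.Subset.refl _) (hF.2 q hq)⟩

theorem g0_prob : ∃ a c : ℝ, 0 < a ∧ 0 < c ∧ c < 1 ∧ ∀ n m K : ℕ, 1 ≤ m → 1 ≤ K →
    4 * m * K + 2 * m ≤ 2 * n → 2 * n ≤ 8 * m + 12 * m * K → ∀ S : Finset Edg,
    boxE (n + 2 * m) ⊆ S → c ^ (K ^ 2) ≤ Pr P S (G0 n m K a) := by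
  obtain ⟨a, c, ha, hc, h⟩ := count_lower
  have hc1 : c ≤ 1 := (h 1 le_rfl _ (Finset.Subset.refl _)).trans (Pr_le_one w_ok _ _)
  obtain ⟨b, hb⟩ : ∃ b : ℝ, b = 1 / 2 := ⟨_, rfl⟩
  have hb0 : 0 < b := by rw [hb]; norm_num
  have hb1 : b < 1 := by rw [hb]; norm_num
  have hbp : 0 < b ^ 1316 := pow_pos hb0 _
  have hbp1 : b ^ 1316 < 1 := pow_lt_one₀ hb0.le hb1 (by norm_num)
  obtain ⟨d, hd⟩ : ∃ d : ℝ, d = b ^ 1316 := ⟨_, rfl⟩
  rw [← hd] at hbp hbp1
  refine ⟨a, c * d, ha, mul_pos hc hbp, by nlinarith, ?_⟩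
  intro n m K hm hK1 hK hK2 S hS
  have hsub : boxE n ⊆ S := (boxE_mono (by omega)).trans hS
  obtain ⟨q0, hq0⟩ : ∃ q0 : ℝ, q0 = b ^ (141 * (2 * K) + 47) := ⟨_, rfl⟩
  have hq00 : 0 ≤ q0 := by rw [hq0]; exact pow_nonneg hb0.le _
  have hn0 : 0 < n := by nlinarith
  have hstrip : q0 ≤ hh (1 / 2) (2 * (n : ℤ)) (2 * m) := by
    rw [hq0, hb]
    apply hh_long (m := m) (by exact_mod_cast hm) (2 * K) (by omega) _ le_rfl
    push_cast
    have : (2 * (n : ℤ)) ≤ 8 * m + 12 * m * K := by exact_mod_cast hK2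
    linarith
  have hall := fkg_all (n := n) (m := m) (K := K) (S := S) (a := a) hc.le hq00
    (fun i hi => by
      rw [strip_LR hK (by rw [Finset.mem_range] at hi; omega) hsub]
      exact hstrip)
    (fun i hi => by
      rw [strip_TB hK (by rw [Finset.mem_range] at hi; omega) hsub]
      exact hstrip)
    (fun q hq => by
      rw [Finset.mem_product, Finset.mem_range, Finset.mem_range] at hq
      exact pr_CtAt (h m hm) ((cen_bo hK hq.1 hq.2).trans hS))
  have k3 := pow_bound hK1 hb0.le hb1.le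
  rw [← hd, ← hq0] at k3
  refine le_trans ?_ hall
  calc (c * d) ^ (K ^ 2) = d ^ (K ^ 2) * c ^ (K * K) := by rw [mul_pow, mul_comm, _root_.sq K]
    _ ≤ q0 ^ (K + 1) * q0 ^ (K + 1) * c ^ (K * K) :=
        mul_le_mul_of_nonneg_right k3 (pow_nonneg hc.le _)

/-- as `grid_meet`, with a vertical crossing -/
theorem grid_meet' {n m K : ℕ} (hm : 1 ≤ m) (hK : 4 * m * K + 2 * m ≤ 2 * n) {F : Finset Edg}
    (hG : Grid n m K F) : ∃ z : Vtx, z ∈ bx n ∧ (∀ i j : ℕ, i < K → j < K → ∀ u : Vtx,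
      nv (u - cen n m i j) ≤ m → Far u (4 * m) F → Reach (↑F ∩ ↑(boxE n)) u z) ∧
      ∃ x x' : ℤ, (-(n : ℤ) ≤ x ∧ x ≤ n) ∧ Reach (↑F ∩ ↑(boxE n)) (x, -(n : ℤ)) (x', n) ∧
        Reach (↑F ∩ ↑(boxE n)) (x, -(n : ℤ)) z := by
  have hH : ∀ i, i ≤ K → ∃ h h' : ℤ, (st n m i ≤ h ∧ h ≤ st n m i + 2 * m) ∧
      Reach (↑F ∩ ↑(RE (-(n : ℤ)) n (st n m i) (st n m i + 2 * m))) (-(n : ℤ), h) (n, h') := by
    intro i hi
    obtain ⟨y, y', h1, h2, h3⟩ := hG.1 i (by rw [Finset.mem_range]; omega)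
    exact ⟨y, y', h1, h3.mono (Set.inter_subset_inter_right _ (by exact_mod_cast LRE_subset_RE))⟩
  have hV : ∀ i, i ≤ K → ∃ h h' : ℤ, (st n m i ≤ h ∧ h ≤ st n m i + 2 * m) ∧
      Reach (↑F ∩ ↑(RE (st n m i) (st n m i + 2 * m) (-(n : ℤ)) n)) (h, -(n : ℤ)) (h', n) := by
    intro i hi
    obtain ⟨y, y', h1, h2, h3⟩ := hG.2 i (by rw [Finset.mem_range]; omega)
    exact ⟨y, y', h1, h3.mono (Set.inter_subset_inter_right _ (by exact_mod_cast TBE_subset_RE))⟩
  choose! H H' hH1 hH2 using hH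
  choose! V V' hV1 hV2 using hV
  have hm' : (1 : ℤ) ≤ m := by exact_mod_cast hm
  have hbig : ∀ {a b c d : ℤ}, -(n : ℤ) ≤ a → b ≤ n → -(n : ℤ) ≤ c → d ≤ n →
      (↑F ∩ ↑(RE a b c d) : Set Edg) ⊆ ↑F ∩ ↑(boxE n) := by
    intro a b c d h1 h2 h3 h4
    refine Set.inter_subset_inter_right _ ?_
    unfold boxE
    exact_mod_cast RE_subset h1 h2 h3 h4
  have hHV : ∀ i j, i ≤ K → j ≤ K → Reach (↑F ∩ ↑(boxE n)) (-(n : ℤ), H i) (V j, -(n : ℤ)) := by
    intro i j hi hj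
    have a1 := st_ge n m i
    have a2 := st_ge n m j
    have a3 := st_le hK hi
    have a4 := st_le hK hj
    exact cross_meet (A := -(n : ℤ)) (B := n) (C := -(n : ℤ)) (D := n) (a := st n m j)
      (b := st n m j + 2 * m) (c := st n m i) (d := st n m i + 2 * m) a2 (by omega) a4 a1
      (by omega) a3 (hH2 i hi) a2 a4 (hV2 j hj) a1 a3
  refine ⟨(-(n : ℤ), H 0), ?_, ?_, V 0, V' 0, ?_, ?_, ?_⟩
  · have a1 := st_ge n m 0
    have a3 := st_le hK (Nat.zero_le K)
    have a5 := hH1 0 (Nat.zero_le K)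
    rw [w_mem_bx]
    simp only
    omega
  swap
  · have a1 := st_ge n m 0
    have a3 := st_le hK (Nat.zero_le K)
    have a5 := hV1 0 (Nat.zero_le K)
    omega
  swap
  · have a1 := st_ge n m 0
    have a3 := st_le hK (Nat.zero_le K)
    exact (hV2 0 (Nat.zero_le K)).mono (hbig a1 a3 le_rfl le_rfl)
  swap
  · exact (hHV 0 0 (Nat.zero_le K) (Nat.zero_le K)).symm
  have hHz : ∀ i, i ≤ K → Reach (↑F ∩ ↑(boxE n)) (-(n : ℤ), H i) (-(n : ℤ), H 0) := by
    intro i hi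
    exact (hHV i 0 hi (Nat.zero_le K)).trans (hHV 0 0 (Nat.zero_le K) (Nat.zero_le K)).symm
  have hVz : ∀ i, i ≤ K → Reach (↑F ∩ ↑(boxE n)) (V i, -(n : ℤ)) (-(n : ℤ), H 0) := by
    intro i hi
    exact (hHV 0 i (Nat.zero_le K) hi).symm
  intro i j hi hj u hu hfar
  have a1 := st_ge n m i
  have a2 := st_ge n m j
  have a3 := st_le hK (show i + 1 ≤ K from hi)
  have a4 := st_le hK (show j + 1 ≤ K from hj)
  have b1 := st_succ n m i
  have b2 := st_succ n m j
  have hu' : (st n m i + 2 * m ≤ u.1 ∧ u.1 ≤ st n m i + 4 * m) ∧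
      (st n m j + 2 * m ≤ u.2 ∧ u.2 ≤ st n m j + 4 * m) := by
    unfold nv Pool.Agent.Y244.PC.cen at hu
    simp only [Prod.fst_sub, Prod.snd_sub] at hu
    omega
  obtain ⟨v, hv, hr⟩ := hfar
  have hv' : v.1 ≤ st n m i ∨ st n m i + 6 * m ≤ v.1 ∨ v.2 ≤ st n m j ∨
      st n m j + 6 * m ≤ v.2 := by
    unfold nv at hv
    simp only [Prod.fst_sub, Prod.snd_sub] at hv
    omega
  obtain ⟨w, k1, k2, k3⟩ := first_exit (a := st n m i) (b := st n m i + 6 * m) (c := st n m j)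
    (d := st n m j + 6 * m) (by unfold inR; omega) hr hv'
  unfold inR at k1
  have huw : Reach (↑F ∩ ↑(boxE n)) u w := k3.mono (hbig a1 (by omega) a2 (by omega))
  rcases k2 with hw | hw | hw | hw
  · have h1 := cross_meet (A := st n m i) (B := st n m i + 6 * m) (C := -(n : ℤ)) (D := n)
      (a := st n m i) (b := st n m i + 2 * m) (c := st n m j) (d := st n m j + 6 * m) le_rfl
      (by omega) (by omega) a2 (by omega) (by omega) k3.symm hw.le hu'.1.1 (hV2 i (by omega))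
      a2 (show st n m j + 6 * m ≤ (n : ℤ) by omega)
    exact huw.trans ((h1.mono (hbig a1 (by omega) le_rfl le_rfl)).trans (hVz i (by omega)))
  · have h1 := cross_meet (A := st n m i) (B := st n m i + 6 * m) (C := -(n : ℤ)) (D := n)
      (a := st n m (i + 1)) (b := st n m (i + 1) + 2 * m) (c := st n m j)
      (d := st n m j + 6 * m) (by omega) (by omega) (by omega) a2 (by omega) (by omega) k3
      (by omega) (by omega) (hV2 (i + 1) (by omega)) a2
      (show st n m j + 6 * m ≤ (n : ℤ) by omega)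
    exact (h1.mono (hbig a1 (by omega) le_rfl le_rfl)).trans (hVz (i + 1) (by omega))
  · have h1 := cross_meet (A := -(n : ℤ)) (B := n) (C := st n m j) (D := st n m j + 6 * m)
      (a := st n m i) (b := st n m i + 6 * m) (c := st n m j) (d := st n m j + 2 * m) a1
      (by omega) (by omega) le_rfl (by omega) (by omega) (hH2 j (by omega)) a1
      (show st n m i + 6 * m ≤ (n : ℤ) by omega) k3.symm hw.le hu'.2.1
    exact huw.trans ((h1.mono (hbig le_rfl le_rfl a2 (by omega))).symm.trans (hHz j (by omega)))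
  · have h1 := cross_meet (A := -(n : ℤ)) (B := n) (C := st n m j) (D := st n m j + 6 * m)
      (a := st n m i) (b := st n m i + 6 * m) (c := st n m (j + 1))
      (d := st n m (j + 1) + 2 * m) a1
      (by omega) (by omega) (by omega) (by omega) (by omega) (hH2 (j + 1) (by omega)) a1
      (show st n m i + 6 * m ≤ (n : ℤ) by omega) k3 (by omega) (by omega)
    exact (h1.mono (hbig le_rfl le_rfl a2 (by omega))).symm.trans (hHz (j + 1) (by omega))

/-- the shift -/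
def zz (n : ℕ) : Vtx := (0, 3 * (n : ℤ))

/-- the annulus -/
noncomputable def An (n : ℕ) : Finset Edg := boxE (5 * n) \ boxE n

/-- a circuit and a grid -/
def GG (n m K : ℕ) (a : ℝ) (F : Finset Edg) : Prop :=
  Circ (2 * n) (4 * n) F ∧ G0 n m K a (sh (zz n) F)

theorem GG.mono {n m K : ℕ} {a : ℝ} {F G : Finset Edg} (h : F ⊆ G) (hF : GG n m K a F) :
    GG n m K a G := ⟨hF.1.mono h, hF.2.mono (sh_mono h)⟩

theorem mem_An {n : ℕ} {e : Edg} : e ∈ An n ↔ e ∈ boxE (5 * n) ∧ e ∉ boxE n := by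
  unfold An
  rw [Finset.mem_sdiff]

theorem RE_sub_An {n : ℕ} {a b c d : ℤ} (h1 : -(5 * n : ℤ) ≤ a) (h2 : b ≤ 5 * n)
    (h3 : -(5 * n : ℤ) ≤ c) (h4 : d ≤ 5 * n)
    (h : (n : ℤ) < a ∨ b < -(n : ℤ) ∨ (n : ℤ) < c ∨ d < -(n : ℤ)) : RE a b c d ⊆ An n := by
  rintro ⟨x, y, _ | _⟩ he
  · rw [mem_An]
    unfold boxE
    rw [mem_RE_false] at he ⊢
    rw [mem_RE_false]
    push_cast
    omega
  · rw [mem_An]
    unfold boxE
    rw [mem_RE_true] at he ⊢
    rw [mem_RE_true]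
    push_cast
    omega

theorem bo_sub_An {n m : ℕ} (h : 2 * m < n) : bo (zz n) (n + 2 * m) ⊆ An n := by
  unfold bo zz
  apply RE_sub_An <;> push_cast <;> omega

theorem circ_loc {n : ℕ} (hn : 1 ≤ n) (F : Finset Edg) :
    Circ (2 * n) (4 * n) F ↔ Circ (2 * n) (4 * n) (F ∩ An n) := by
  have s1 : LRE (-(4 * n : ℤ)) (4 * n) (2 * n) (4 * n) ⊆ An n :=
    LRE_subset_RE.trans (RE_sub_An (by omega) (by omega) (by omega) (by omega) (by omega))
  have s2 : LRE (-(4 * n : ℤ)) (4 * n) (-(4 * n)) (-(2 * n)) ⊆ An n :=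
    LRE_subset_RE.trans (RE_sub_An (by omega) (by omega) (by omega) (by omega) (by omega))
  have s3 : TBE (2 * n : ℤ) (4 * n) (-(4 * n)) (4 * n) ⊆ An n :=
    TBE_subset_RE.trans (RE_sub_An (by omega) (by omega) (by omega) (by omega) (by omega))
  have s4 : TBE (-(4 * n : ℤ)) (-(2 * n)) (-(4 * n)) (4 * n) ⊆ An n :=
    TBE_subset_RE.trans (RE_sub_An (by omega) (by omega) (by omega) (by omega) (by omega))
  unfold Circ
  rw [← LRc_local s1, ← LRc_local s2, ← TBc_local s3, ← TBc_local s4]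

theorem An_sub (n : ℕ) : An n ⊆ boxE (5 * n) := Finset.sdiff_subset

theorem gg_prob : ∃ a c : ℝ, 0 < a ∧ 0 < c ∧ c < 1 ∧ ∀ n m K : ℕ, 1 ≤ m → 1 ≤ K →
    4 * m * K + 2 * m ≤ 2 * n → 2 * n ≤ 8 * m + 12 * m * K →
    c ^ (K ^ 2) ≤ Pr P (An n) (GG n m K a) := by
  obtain ⟨a, c, ha, hc, hc1, h⟩ := g0_prob
  have hb : (0 : ℝ) < (1 / 2 : ℝ) ^ 188 := by positivity
  have hb1 : (1 / 2 : ℝ) ^ 188 < 1 := pow_lt_one₀ (by norm_num) (by norm_num) (by norm_num)
  obtain ⟨b, hbe⟩ : ∃ b : ℝ, b = (1 / 2 : ℝ) ^ 188 := ⟨_, rfl⟩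
  rw [← hbe] at hb hb1
  refine ⟨a, b * c, ha, by positivity, by nlinarith, fun n m K hm hK1 hK hK2 => ?_⟩
  have hn0 : 0 < n := by nlinarith
  have h2m : 2 * m < n := by nlinarith
  have k1 : b ≤ Pr P (An n) (Circ (2 * n) (4 * n)) := by
    have e1 : Pr P (boxE (5 * n)) (Circ (2 * n) (4 * n)) =
        Pr P (An n) (Circ (2 * n) (4 * n)) :=
      Pr_local (An_sub n) (A := Circ (2 * n) (4 * n)) (fun F _ => circ_loc (by omega) F)
    rw [← e1]
    have e2 := pr_Circ (q := 1 / 2) (by norm_num) (by norm_num) (R1 := 2 * n) (R2 := 4 * n)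
      (by positivity) (by omega) (S := boxE (5 * n))
      (by unfold boxE; apply RE_subset <;> push_cast <;> omega)
    refine le_trans ?_ e2
    have e3 := rsw (n := n) (w := 2 * (4 * n)) (h := 4 * n - 2 * n) (by omega) (by omega)
      (by omega) (by omega)
    rw [hbe]
    calc (1 / 2 : ℝ) ^ 188 = ((1 / 2 : ℝ) ^ 47) ^ 4 := by norm_num
      _ ≤ _ := pow_le_pow_left₀ (by positivity) e3 4
  have k2 : c ^ (K ^ 2) ≤ Pr P (An n) (fun F => G0 n m K a (sh (zz n) F)) := by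
    rw [pr_sh]
    apply h n m K hm hK1 hK hK2
    rw [← sh_bo (zz n)]
    exact sh_mono (bo_sub_An h2m)
  have k3 := Pr_harris w_ok (S := An n) (A := Circ (2 * n) (4 * n))
    (B := fun F => G0 n m K a (sh (zz n) F)) (fun F G h _ hF => hF.mono h)
    (fun F G h _ hF => hF.mono (sh_mono h))
  refine le_trans ?_ ((mul_le_mul k1 k2 (by positivity) (hb.le.trans k1)).trans k3)
  rw [mul_pow]
  apply mul_le_mul_of_nonneg_right _ (by positivity)
  exact pow_le_of_le_one hb.le hb1.le (by positivity)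

/-- the grid of an annulus is part of the cluster of the origin -/
theorem gg_vn {n m K : ℕ} (hm : 1 ≤ m) (hK : 4 * m * K + 2 * m ≤ 2 * n) {a : ℝ}
    {F : Finset Edg} (hG : GG n m K a F) (hF : Far (0, 0) (4 * n) F) :
    Vn (4 * n) ((K : ℝ) ^ 2 * (a * ((m : ℝ) ^ 2 * ar m))) ↑F := by
  classical
  have hn0 : 0 < n := by nlinarith
  obtain ⟨hC, hgr, hct⟩ := hG
  obtain ⟨z, hz⟩ := circ_meet (R1 := 2 * n) (R2 := 4 * n) (by positivity) (by omega) hC
  obtain ⟨z1, hz1, hall, x, x', hx, hxx, hxz⟩ := grid_meet' hm hK hgr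
  -- the origin
  have h0 : Reach (↑F) (0, 0) z := by
    obtain ⟨v, hv, hr⟩ := hF
    rw [sub00] at hv
    obtain ⟨w, k1, k2, k3⟩ := first_exit (a := -(4 * n : ℤ)) (b := 4 * n) (c := -(4 * n : ℤ))
      (d := 4 * n) (u := (0, 0)) (v := v) (by unfold inR; simp only; omega) hr
      (by unfold nv at hv; omega)
    exact (hz (0, 0) w (by unfold inR; simp only; omega) k2 k3).mono Set.inter_subset_left
  -- the vertical crossing
  have hcr : Reach (↑F) (x, 2 * (n : ℤ)) z := by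
    have e1 := sh_reach_box.mp hxx
    have e2 : ((x, -(n : ℤ)) : Vtx) + zz n = (x, 2 * (n : ℤ)) := by
      unfold zz
      ext
      · simp
      · simp only [Prod.snd_add]; ring
    have e3 : ((x', (n : ℤ)) : Vtx) + zz n = (x', 4 * (n : ℤ)) := by
      unfold zz
      ext
      · simp
      · simp only [Prod.snd_add]; ring
    rw [e2, e3] at e1
    have e4 : (↑F ∩ ↑(bo (zz n) n) : Set Edg) ⊆
        ↑F ∩ ↑(RE (-(4 * n : ℤ)) (4 * n) (-(4 * n)) (4 * n)) := by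
      refine Set.inter_subset_inter_right _ ?_
      unfold bo zz
      exact_mod_cast RE_subset (by simp only; omega) (by simp only; omega) (by simp only; omega)
        (by simp only; omega)
    exact (hz (x, 2 * (n : ℤ)) (x', 4 * (n : ℤ)) (by unfold inR; simp only; omega)
      (Or.inr (Or.inr (Or.inr rfl))) (e1.mono e4)).mono Set.inter_subset_left
  have hx1 : Reach (↑F) (x, 2 * (n : ℤ)) (z1 + zz n) := by
    have e1 := (sh_reach_box.mp hxz).mono Set.inter_subset_left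
    have e2 : ((x, -(n : ℤ)) : Vtx) + zz n = (x, 2 * (n : ℤ)) := by
      unfold zz
      ext
      · simp
      · simp only [Prod.snd_add]; ring
    rwa [e2] at e1
  have h01 : Reach (↑F) (0, 0) (z1 + zz n) := h0.trans (hcr.symm.trans hx1)
  -- the vertices
  have h1 : ∀ q : ℕ × ℕ, ∃ T : Finset Vtx, q ∈ range K ×ˢ range K →
      a * ((m : ℝ) ^ 2 * ar m) ≤ (T.card : ℝ) ∧
      ∀ u ∈ T, nv (u - cen n m q.1 q.2) ≤ m ∧ Far u (4 * m) (sh (zz n) F) := by
    intro q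
    by_cases hq : q ∈ range K ×ˢ range K
    · obtain ⟨T, h2, h3⟩ := CtAt_set (hct q hq)
      exact ⟨T, fun _ => ⟨h2, h3⟩⟩
    · exact ⟨∅, fun h => absurd h hq⟩
  choose T hT using h1
  refine ⟨((range K ×ˢ range K).biUnion T).map (addRightEmbedding (zz n)), ?_, ?_, ?_⟩
  · intro u hu
    rw [Finset.mem_map] at hu
    obtain ⟨w, hw, rfl⟩ := hu
    rw [Finset.mem_biUnion] at hw
    obtain ⟨q, hq, hw⟩ := hw
    have h2 := ((hT q hq).2 w hw).1
    rw [Finset.mem_product, Finset.mem_range, Finset.mem_range] at hq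
    have a1 := st_ge n m q.1
    have a2 := st_ge n m q.2
    have a3 := st_le hK (show q.1 + 1 ≤ K from hq.1)
    have a4 := st_le hK (show q.2 + 1 ≤ K from hq.2)
    have b1 := st_succ n m q.1
    have b2 := st_succ n m q.2
    unfold nv Pool.Agent.Y244.PC.cen at h2
    simp only [Prod.fst_sub, Prod.snd_sub] at h2
    rw [w_mem_bx]
    show (-((4 * n : ℕ) : ℤ) ≤ (w + zz n).1 ∧ (w + zz n).1 ≤ ((4 * n : ℕ) : ℤ)) ∧
      (-((4 * n : ℕ) : ℤ) ≤ (w + zz n).2 ∧ (w + zz n).2 ≤ ((4 * n : ℕ) : ℤ))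
    unfold zz
    simp only [Prod.fst_add, Prod.snd_add]
    push_cast
    omega
  · rw [Finset.card_map, Finset.card_biUnion]
    · push_cast
      calc (K : ℝ) ^ 2 * (a * ((m : ℝ) ^ 2 * ar m))
          = ∑ q ∈ range K ×ˢ range K, a * ((m : ℝ) ^ 2 * ar m) := by
            rw [Finset.sum_const, Finset.card_product, Finset.card_range, nsmul_eq_mul]
            push_cast
            ring
        _ ≤ _ := Finset.sum_le_sum fun q hq => (hT q hq).1
    · intro q hq q' hq' hne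
      show Disjoint (T q) (T q')
      rw [Finset.disjoint_left]
      intro u hu hu'
      have := cen_disj hm ((hT q hq).2 u hu).1 ((hT q' hq').2 u hu').1
      exact hne (Prod.ext this.1 this.2)
  · intro u hu
    rw [Finset.mem_map] at hu
    obtain ⟨w, hw, rfl⟩ := hu
    rw [Finset.mem_biUnion] at hw
    obtain ⟨q, hq, hw⟩ := hw
    obtain ⟨h2, h3⟩ := (hT q hq).2 w hw
    rw [Finset.mem_product, Finset.mem_range, Finset.mem_range] at hq
    have h4 := (hall q.1 q.2 hq.1 hq.2 w h2 h3).mono Set.inter_subset_left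
    exact h01.trans (sh_reach.mp h4).symm

end Run7.h495.IIC
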