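import Pool.Agent.Run7.h495.IIC.Lim

/-!
Lower bounds: one scale, and infinitely many scales.
-/

set_option autoImplicit false

namespace Run7.h495.IIC
open Finset H974 Pool.Agent.H160R2.CV Pool.Agent.H160R2.CV.Quad H362P MeasureTheory
open Pool.Agent.H389R2.CD Pool.Agent.Y244.PC Filter Topology

/-- the local event of the annulus at scale `n` -/
def GH (n m K : ℕ) (a : ℝ) (F : Finset Edg) : Prop := GG n m K a (F ∩ An n)

theorem GH.mono {n m K : ℕ} {a : ℝ} {F G : Finset Edg} (h : F ⊆ G) (hF : GH n m K a F) :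
    GH n m K a G := GG.mono (Finset.inter_subset_inter_right h) hF

theorem GH_loc {n m K : ℕ} {a : ℝ} (F : Finset Edg) :
    GH n m K a F ↔ GH n m K a (F ∩ An n) := by
  unfold GH
  rw [Finset.inter_assoc, Finset.inter_self]

theorem GH_GG {n m K : ℕ} {a : ℝ} {F : Finset Edg} (hF : GH n m K a F) : GG n m K a F :=
  GG.mono Finset.inter_subset_left hF

theorem pr_GH {n m K : ℕ} {a : ℝ} {S : Finset Edg} (hS : An n ⊆ S) :
    Pr P S (GH n m K a) = Pr P (An n) (GG n m K a) := by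
  have h1 : Pr P S (GH n m K a) = Pr P (An n) (GH n m K a) :=
    Pr_local hS (A := GH n m K a) (fun F _ => GH_loc F)
  rw [h1]
  apply Pr_congr
  intro F hF
  unfold GH
  rw [Finset.inter_eq_left.mpr hF]

theorem GH_vn {n m K : ℕ} (hm : 1 ≤ m) (hK : 4 * m * K + 2 * m ≤ 2 * n) {a : ℝ} {ω : Om}
    {M : ℕ} (hM : 4 * n ≤ M) (hG : GH n m K a (FF (boxE M) ω)) (hF : FarS (4 * n) (opn ω)) :
    Vn (4 * n) ((K : ℝ) ^ 2 * (a * ((m : ℝ) ^ 2 * ar m))) (opn ω) := by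
  have h1 : Far (0, 0) (4 * n) (FF (boxE M) ω) := by
    rw [← farS_coe]
    rw [farS_armE] at hF
    obtain ⟨v, hv, hr⟩ := hF
    refine ⟨v, ?_, ?_⟩
    · unfold onB inR at hv
      unfold nv
      omega
    · rw [FF_coe] at hr ⊢
      refine hr.mono ?_
      rintro e ⟨⟨h1, -⟩, h2⟩
      exact ⟨h1, InfAux.boxE_coe_mono hM h2⟩
  refine (gg_vn hm hK (GH_GG hG) h1).mono ?_
  rw [FF_coe]
  exact Set.inter_subset_left

/-- the volume produced by the grid -/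
theorem grid_volume (hAr : ArSharp) {a : ℝ} (ha : 0 < a) : ∃ a1 : ℝ, 0 < a1 ∧
    ∀ n m K : ℕ, 1 ≤ m → 1 ≤ K → n ≤ 6 * K * m →
    a1 * ((K : ℝ) ^ (5 / 48 : ℝ) * (n : ℝ) ^ (91 / 48 : ℝ)) ≤
      (K : ℝ) ^ 2 * (a * ((m : ℝ) ^ 2 * ar m)) := by
  obtain ⟨c0, C0, hc0, hC0, har⟩ := hAr
  refine ⟨a * c0 * (6 : ℝ) ^ (-(91 / 48 : ℝ)), by positivity, fun n m K hm hK h6 => ?_⟩
  have hm0 : (0 : ℝ) < m := by exact_mod_cast hm
  have hK0 : (0 : ℝ) < K := by exact_mod_cast hK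
  have h11 : (n : ℝ) ^ (91 / 48 : ℝ) ≤ (6 : ℝ) ^ (91 / 48 : ℝ) * (K : ℝ) ^ (91 / 48 : ℝ) *
      (m : ℝ) ^ (91 / 48 : ℝ) := by
    rw [← Real.mul_rpow (by positivity) (by positivity),
      ← Real.mul_rpow (by positivity) (by positivity)]
    apply Real.rpow_le_rpow (by positivity) _ (by norm_num)
    exact_mod_cast h6
  have h12 : c0 * (m : ℝ) ^ (91 / 48 : ℝ) ≤ (m : ℝ) ^ 2 * ar m := by
    have h13 := (har m hm).1
    have h14 : (m : ℝ) ^ (91 / 48 : ℝ) = (m : ℝ) ^ 2 * (m : ℝ) ^ (-(5 / 48 : ℝ)) := by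
      rw [← Real.rpow_natCast (m : ℝ) 2, ← Real.rpow_add hm0]
      norm_num
    rw [h14]
    have : (0 : ℝ) ≤ (m : ℝ) ^ 2 := by positivity
    nlinarith
  have h15 : (K : ℝ) ^ (5 / 48 : ℝ) * (K : ℝ) ^ (91 / 48 : ℝ) = (K : ℝ) ^ 2 := by
    rw [← Real.rpow_add hK0, ← Real.rpow_natCast (K : ℝ) 2]
    norm_num
  have h16 : (6 : ℝ) ^ (-(91 / 48 : ℝ)) * (6 : ℝ) ^ (91 / 48 : ℝ) = 1 := by
    rw [← Real.rpow_add (by norm_num)]
    norm_num
  calc a * c0 * (6 : ℝ) ^ (-(91 / 48 : ℝ)) * ((K : ℝ) ^ (5 / 48 : ℝ) * (n : ℝ) ^ (91 / 48 : ℝ))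
      ≤ a * c0 * (6 : ℝ) ^ (-(91 / 48 : ℝ)) * ((K : ℝ) ^ (5 / 48 : ℝ) *
        ((6 : ℝ) ^ (91 / 48 : ℝ) * (K : ℝ) ^ (91 / 48 : ℝ) * (m : ℝ) ^ (91 / 48 : ℝ))) := by
        apply mul_le_mul_of_nonneg_left _ (by positivity)
        exact mul_le_mul_of_nonneg_left h11 (by positivity)
    _ = (6 : ℝ) ^ (-(91 / 48 : ℝ)) * (6 : ℝ) ^ (91 / 48 : ℝ) *
        ((K : ℝ) ^ (5 / 48 : ℝ) * (K : ℝ) ^ (91 / 48 : ℝ)) *
        (a * (c0 * (m : ℝ) ^ (91 / 48 : ℝ))) := by ring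
    _ = (K : ℝ) ^ 2 * (a * (c0 * (m : ℝ) ^ (91 / 48 : ℝ))) := by rw [h16, h15, one_mul]
    _ ≤ _ := by
      apply mul_le_mul_of_nonneg_left _ (by positivity)
      exact mul_le_mul_of_nonneg_left h12 ha.le

/-- the mesh -/
theorem mesh {n K : ℕ} (h : 2 * K + 1 ≤ n) : 1 ≤ n / (2 * K + 1) ∧
    4 * (n / (2 * K + 1)) * K + 2 * (n / (2 * K + 1)) ≤ 2 * n ∧
    (1 ≤ K → 2 * n ≤ 8 * (n / (2 * K + 1)) + 12 * (n / (2 * K + 1)) * K ∧
      n ≤ 6 * K * (n / (2 * K + 1))) := by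
  set m : ℕ := n / (2 * K + 1) with hm
  have hm1 : 1 ≤ m := by
    rw [hm, Nat.le_div_iff_mul_le (by omega)]
    omega
  have hm2 : m * (2 * K + 1) ≤ n := Nat.div_mul_le_self _ _
  have hm3 : n < (m + 1) * (2 * K + 1) := by
    rw [hm]
    exact Nat.lt_mul_of_div_lt (Nat.lt_succ_self _) (by omega)
  refine ⟨hm1, by nlinarith, fun hK1 => ⟨by nlinarith, by nlinarith⟩⟩

theorem full_vn {n : ℕ} {y : ℝ} (hy : y ≤ (2 * (n : ℝ) + 1) ^ 2) {F : Set Edg}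
    (hF : (↑(boxE n) : Set Edg) ⊆ F) : Vn n y F := by
  obtain ⟨v, hv, -⟩ := full_big (n := n) (N := y) hy
  have key : ∀ u ∈ bx n, Reach F (-(n : ℤ), -(n : ℤ)) u := by
    rintro ⟨x, y⟩ hu
    rw [w_mem_bx] at hu
    simp only at hu
    have h1 := full_col (n := n) (y + n).toNat (by omega)
    have h2 := full_row (n := n) hu.2 (x + n).toNat (by omega)
    have e1 : -(n : ℤ) + ((y + n).toNat : ℤ) = y := by omega
    have e2 : -(n : ℤ) + ((x + n).toNat : ℤ) = x := by omega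
    rw [e1] at h1
    rw [e2] at h2
    refine (h1.trans h2).mono ?_
    rw [Set.inter_self]
    exact hF
  refine ⟨bx n, Finset.Subset.refl _, ?_, ?_⟩
  · rw [w_card_bx]
    exact hy
  · intro u hu
    exact (key (0, 0) (by rw [w_mem_bx]; simp)).symm.trans (key u hu)

/-- **the lower bound for the upper tail** -/
theorem iic_lower (hAr : ArSharp) : ∃ C : ℝ, 0 < C ∧ ∀ ν : Measure Om, IsIIC ν →
    ∀ n : ℕ, 1 ≤ n → ∀ x : ℝ, 1 ≤ x → x * (n : ℝ) ^ (91 / 48 : ℝ) ≤ (2 * (n : ℝ) + 1) ^ 2 →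
    Real.exp (-(C * x ^ (96 / 5 : ℝ))) ≤
      ν.real {ω | Vn n (x * (n : ℝ) ^ (91 / 48 : ℝ)) (opn ω)} := by
  obtain ⟨a, c, ha, hc, hc1, hg⟩ := gg_prob
  obtain ⟨a0, ha0, hvol⟩ := grid_volume hAr ha
  set a1 : ℝ := a0 * (7 : ℝ) ^ (-(91 / 48 : ℝ)) with ha1
  have ha10 : 0 < a1 := by positivity
  set B : ℝ := (1 / a1) ^ (48 / 5 : ℝ) + 1 with hB
  have hB0 : 0 < B := by positivity
  have hlog : 0 < -Real.log c := by
    have := Real.log_neg hc hc1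
    linarith
  refine ⟨-Real.log c * B ^ 2 + 2592 * B ^ 2, by positivity, fun ν hν n hn x hx hxn => ?_⟩
  haveI := hν.1
  have hn0 : (0 : ℝ) < n := by exact_mod_cast hn
  have hx0 : 0 < x := by linarith
  set K : ℕ := ⌈(x / a1) ^ (48 / 5 : ℝ)⌉₊ with hK
  have hK1 : 1 ≤ K := by
    rw [hK, Nat.one_le_ceil_iff]
    positivity
  have hK0 : (0 : ℝ) < K := by exact_mod_cast hK1
  have hKx : (x / a1) ^ (48 / 5 : ℝ) ≤ K := Nat.le_ceil _
  have hxp : (1 : ℝ) ≤ x ^ (48 / 5 : ℝ) := Real.one_le_rpow hx (by norm_num)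
  have hKB : (K : ℝ) ≤ B * x ^ (48 / 5 : ℝ) := by
    have h1 : (K : ℝ) < (x / a1) ^ (48 / 5 : ℝ) + 1 := Nat.ceil_lt_add_one (by positivity)
    have h2 : (x / a1) ^ (48 / 5 : ℝ) = (1 / a1) ^ (48 / 5 : ℝ) * x ^ (48 / 5 : ℝ) := by
      rw [← Real.mul_rpow (by positivity) hx0.le]
      congr 1
      ring
    rw [h2] at h1
    rw [hB]
    nlinarith
  have hxx : (x ^ (48 / 5 : ℝ)) ^ 2 = x ^ (96 / 5 : ℝ) := by
    rw [rpow_sq' hx0.le]
    norm_num
  have hK2 : ((K ^ 2 : ℕ) : ℝ) ≤ B ^ 2 * x ^ (96 / 5 : ℝ) := by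
    rw [← hxx, ← mul_pow]
    push_cast
    exact pow_le_pow_left₀ (by positivity) hKB 2
  have hxq : (0 : ℝ) ≤ x ^ (96 / 5 : ℝ) := by positivity
  set n' : ℕ := n / 4 with hn'
  by_cases hcase : 2 * K + 1 ≤ n'
  · -- grid
    obtain ⟨hm1, h4, h56⟩ := mesh hcase
    obtain ⟨h5, h6⟩ := h56 hK1
    set m : ℕ := n' / (2 * K + 1) with hm
    have h7 := hg n' m K hm1 hK1 h4 h5
    have h8 : x * (n : ℝ) ^ (91 / 48 : ℝ) ≤ (K : ℝ) ^ 2 * (a * ((m : ℝ) ^ 2 * ar m)) := by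
      refine le_trans ?_ (hvol n' m K hm1 hK1 h6)
      have h9 : x ≤ a1 * (K : ℝ) ^ (5 / 48 : ℝ) := by
        have h10 : ((x / a1) ^ (48 / 5 : ℝ)) ^ (5 / 48 : ℝ) ≤ (K : ℝ) ^ (5 / 48 : ℝ) :=
          Real.rpow_le_rpow (by positivity) hKx (by norm_num)
        rw [← Real.rpow_mul (by positivity)] at h10
        norm_num at h10
        rwa [div_le_iff₀ ha10, mul_comm] at h10
      have h11 : (n : ℝ) ^ (91 / 48 : ℝ) ≤ (7 : ℝ) ^ (91 / 48 : ℝ) * (n' : ℝ) ^ (91 / 48 : ℝ) := by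
        rw [← Real.mul_rpow (by positivity) (by positivity)]
        apply Real.rpow_le_rpow (by positivity) _ (by norm_num)
        have : n ≤ 7 * n' := by omega
        exact_mod_cast this
      have h16 : (7 : ℝ) ^ (-(91 / 48 : ℝ)) * (7 : ℝ) ^ (91 / 48 : ℝ) = 1 := by
        rw [← Real.rpow_add (by norm_num)]
        norm_num
      calc x * (n : ℝ) ^ (91 / 48 : ℝ)
          ≤ (a1 * (K : ℝ) ^ (5 / 48 : ℝ)) * ((7 : ℝ) ^ (91 / 48 : ℝ) *
            (n' : ℝ) ^ (91 / 48 : ℝ)) := mul_le_mul h9 h11 (by positivity) (by positivity)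
        _ = (7 : ℝ) ^ (-(91 / 48 : ℝ)) * (7 : ℝ) ^ (91 / 48 : ℝ) *
            (a0 * ((K : ℝ) ^ (5 / 48 : ℝ) * (n' : ℝ) ^ (91 / 48 : ℝ))) := by rw [ha1]; ring
        _ = _ := by rw [h16, one_mul]
    have h9 : Real.exp (-((-Real.log c * B ^ 2 + 2592 * B ^ 2) * x ^ (96 / 5 : ℝ))) ≤
        c ^ (K ^ 2) := by
      refine le_trans ?_ (exp_le_pow hc hc1 hK2)
      apply Real.exp_le_exp.mpr
      have : 0 ≤ 2592 * B ^ 2 * x ^ (96 / 5 : ℝ) := by positivity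
      nlinarith
    have h10 : An n' ⊆ boxE (5 * n') := An_sub n'
    have h11 := hν.lower (boxE (5 * n')) (Q := GH n' m K a) (fun F G h hF => hF.mono h)
    rw [pr_GH h10] at h11
    refine h9.trans (h7.trans (h11.trans ?_))
    have h12 := hν.far (4 * n')
    have h13 : ν.real ({ω | GH n' m K a (FF (boxE (5 * n')) ω)} ∩ {ω | FarS (4 * n') (opn ω)}) =
        ν.real {ω | GH n' m K a (FF (boxE (5 * n')) ω)} := by
      have hms : MeasurableSet {ω : Om | FarS (4 * n') (opn ω)} := by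
        have e : {ω : Om | FarS (4 * n') (opn ω)} =
            {ω | Arm (4 * n') (FF (boxE (4 * n')) ω)} := by
          ext ω
          exact farS_armE
        rw [e]
        exact meas_event _ _
      have h14 : ν.real {ω : Om | FarS (4 * n') (opn ω)}ᶜ = 0 := by
        rw [probReal_compl_eq_one_sub hms, h12, sub_self]
      have h15 := measureReal_inter_add_diff (μ := ν)
        (s := {ω : Om | GH n' m K a (FF (boxE (5 * n')) ω)}) hms
      have h16 : ν.real ({ω : Om | GH n' m K a (FF (boxE (5 * n')) ω)} \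
          {ω | FarS (4 * n') (opn ω)}) = 0 := by
        apply le_antisymm _ measureReal_nonneg
        rw [← h14]
        exact measureReal_mono (fun ω hω => hω.2)
      linarith
    rw [← h13]
    refine measureReal_mono ?_
    rintro ω ⟨h14, h15⟩
    refine ((GH_vn hm1 h4 (by omega) h14 h15).anti h8).mono_n (by omega)
  · -- everything open
    push Not at hcase
    have h1 : (n : ℝ) ≤ 12 * K := by
      have : n ≤ 12 * K := by omega
      exact_mod_cast this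
    have h2 : (n : ℝ) ^ 2 ≤ 144 * (B ^ 2 * x ^ (96 / 5 : ℝ)) := by
      calc (n : ℝ) ^ 2 ≤ (12 * (K : ℝ)) ^ 2 := pow_le_pow_left₀ hn0.le h1 2
        _ = 144 * (K : ℝ) ^ 2 := by ring
        _ ≤ _ := by
          apply mul_le_mul_of_nonneg_left _ (by norm_num)
          exact_mod_cast hK2
    have h3 := hν.lower (boxE n) (Q := fun F => boxE n ⊆ F) (fun F G h hF => hF.trans h)
    have h4 := extreme_prob hn (Finset.Subset.refl (boxE n)) (A := fun F => boxE n ⊆ F)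
      (Finset.Subset.refl _)
    refine le_trans ?_ (h4.trans (h3.trans ?_))
    · apply Real.exp_le_exp.mpr
      have : 0 ≤ -Real.log c * B ^ 2 * x ^ (96 / 5 : ℝ) := by positivity
      nlinarith
    · refine measureReal_mono (fun ω hω => ?_)
      apply full_vn hxn
      intro e he
      have h5 : e ∈ FF (boxE n) ω := hω he
      exact (mem_FF.mp h5).2

end Run7.h495.IIC
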