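import Pool.Agent.Y244.PC.Mom
import Pool.Agent.H160R2.SA.Arm

/-!
The volume of the cluster of the origin under the condition that the origin is connected to a far
away point: moments and upper tail (incipient infinite cluster of the square lattice).
-/

set_option autoImplicit false

namespace Run7.h495.IIC
open Finset H974 Pool.Agent.H160R2.CV Pool.Agent.H160R2.CV.Quad H362P MeasureTheory
open Pool.Agent.H389R2.CD Pool.Agent.Y244.PC

theorem Ex_U_le' (M n : ℕ) (k : ℕ) (X : Finset Vtx) :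
    Ex P (boxE M) (fun F => U n F k X) ≤ W n k X := by
  induction k generalizing X with
  | zero =>
    show Pr P (boxE M) (fun F => Cn X ↑F) ≤ PX X
    exact InfAux.lower (fun F => Cn X F) (fun F G h hF => Cn.mono h hF) M
  | succ k ih =>
    show Ex P (boxE M) (fun F => ∑ x ∈ bx n, U n F k (insert x X)) ≤
      ∑ x ∈ bx n, W n k (insert x X)
    rw [Ex_sum]
    exact Finset.sum_le_sum fun x _ => ih _

theorem U_ge' {n : ℕ} {F : Finset Edg} {T T' : Finset Vtx} (hT : T ⊆ bx n) (hTT : T ⊆ T')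
    (hc : Cn T' ↑F) (k : ℕ) (X : Finset Vtx) (hX : X ⊆ T') : (T.card : ℝ) ^ k ≤ U n F k X := by
  induction k generalizing X with
  | zero =>
    show (T.card : ℝ) ^ 0 ≤ ind (Cn X ↑F)
    rw [pow_zero, ind_of]
    intro u hu v hv
    exact hc u (hX hu) v (hX hv)
  | succ k ih =>
    show (T.card : ℝ) ^ (k + 1) ≤ ∑ x ∈ bx n, U n F k (insert x X)
    calc (T.card : ℝ) ^ (k + 1) = ∑ x ∈ T, (T.card : ℝ) ^ k := by
          rw [Finset.sum_const, nsmul_eq_mul, pow_succ, mul_comm]
      _ ≤ ∑ x ∈ T, U n F k (insert x X) :=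
          Finset.sum_le_sum fun x hx => ih _ (Finset.insert_subset (hTT hx) hX)
      _ ≤ _ := Finset.sum_le_sum_of_subset_of_nonneg hT (fun x _ _ => U_nonneg _ _ _ _)

/-- the origin is connected to at least `y` vertices of the box `[-n, n]²` -/
def Vn (n : ℕ) (y : ℝ) (F : Set Edg) : Prop :=
  ∃ T : Finset Vtx, T ⊆ bx n ∧ y ≤ (T.card : ℝ) ∧ ∀ u ∈ T, Reach F (0, 0) u

theorem Vn.mono {n : ℕ} {y : ℝ} {F G : Set Edg} (h : F ⊆ G) (hF : Vn n y F) : Vn n y G := by
  obtain ⟨T, h1, h2, h3⟩ := hF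
  exact ⟨T, h1, h2, fun u hu => (h3 u hu).mono h⟩

theorem Vn.anti {n : ℕ} {y y' : ℝ} {F : Set Edg} (h : y' ≤ y) (hF : Vn n y F) : Vn n y' F := by
  obtain ⟨T, h1, h2, h3⟩ := hF
  exact ⟨T, h1, h.trans h2, h3⟩

theorem bx_mono {n m : ℕ} (h : n ≤ m) : bx n ⊆ bx m := by
  intro u hu
  rw [w_mem_bx] at hu ⊢
  omega

theorem Vn.mono_n {n m : ℕ} {y : ℝ} {F : Set Edg} (h : n ≤ m) (hF : Vn n y F) : Vn m y F := by
  obtain ⟨T, h1, h2, h3⟩ := hF
  exact ⟨T, h1.trans (bx_mono h), h2, h3⟩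

theorem Vn.box {n : ℕ} {y : ℝ} {F : Set Edg} (h : Vn n y F) :
    ∃ m : ℕ, Vn n y (F ∩ ↑(boxE m)) := by
  obtain ⟨T, hT0, hT, hr⟩ := h
  have h1 : ∀ u : Vtx, ∃ m : ℕ, u ∈ T → Reach (F ∩ ↑(boxE m)) (0, 0) u := by
    intro u
    by_cases hu : u ∈ T
    · obtain ⟨m, hm⟩ := InfAux.reach_box (hr u hu)
      exact ⟨m, fun _ => hm⟩
    · exact ⟨0, fun h => absurd h hu⟩
  choose m hm using h1
  refine ⟨T.sup m, T, hT0, hT, fun u hu => ?_⟩
  exact (hm u hu).mono
    (Set.inter_subset_inter_right _ (InfAux.boxE_coe_mono (Finset.le_sup hu)))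

theorem vn_moment {n : ℕ} {y : ℝ} (hy : 0 ≤ y) (w : Vtx) (M k : ℕ) :
    y ^ k * Pr P (boxE M) (fun F => Vn n y ↑F ∧ Reach ↑F (0, 0) w) ≤
      W n k (insert w {((0, 0) : Vtx)}) := by
  classical
  refine le_trans ?_ (Ex_U_le' M n k _)
  unfold Pr
  rw [← Ex_mul_left]
  apply Ex_mono w_ok
  intro F _
  by_cases hB : Vn n y ↑F ∧ Reach ↑F (0, 0) w
  · rw [ind_of hB, mul_one]
    obtain ⟨⟨T, hTn, hT, hr⟩, hw⟩ := hB
    refine le_trans (pow_le_pow_left₀ hy hT k)
      (U_ge' (T' := insert w (insert (0, 0) T)) hTn ?_ ?_ k _ ?_)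
    · intro u hu
      exact Finset.mem_insert_of_mem (Finset.mem_insert_of_mem hu)
    · have key : ∀ u ∈ insert w (insert ((0, 0) : Vtx) T), Reach (↑F) (0, 0) u := by
        intro u hu
        rcases Finset.mem_insert.mp hu with rfl | hu
        · exact hw
        · rcases Finset.mem_insert.mp hu with rfl | hu
          · exact Reach.refl _ _
          · exact hr u hu
      intro u hu v hv
      exact (key u hu).symm.trans (key v hv)
    · intro u hu
      rcases Finset.mem_insert.mp hu with rfl | hu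
      · exact Finset.mem_insert_self _ _
      · rw [Finset.mem_singleton] at hu
        rw [hu]
        exact Finset.mem_insert_of_mem (Finset.mem_insert_self _ _)
  · rw [ind_not_of hB, mul_zero]
    exact U_nonneg _ _ _ _

theorem near_insert {X : Finset Vtx} {x w : Vtx} {a : ℕ} (h : Near x X a) (hw : a ≤ sd x w) :
    Near x (insert w X) a := by
  obtain ⟨⟨u, hu, hau⟩, hmin⟩ := h
  refine ⟨⟨u, Finset.mem_insert_of_mem hu, hau⟩, ?_⟩
  rintro d ⟨v, hv, rfl⟩
  rcases Finset.mem_insert.mp hv with rfl | hv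
  · exact hw
  · exact hmin ⟨v, hv, rfl⟩

/-- adding a point of the box to a set which contains the origin and a point far away -/
theorem step_far (hAr : ArS) : ∃ C : ℝ, 0 < C ∧ ∀ n : ℕ, 1 ≤ n → ∀ w : Vtx, 3 * n ≤ nv w →
    ∀ X : Finset Vtx, (0, 0) ∈ X → X ⊆ bx n → ∑ x ∈ bx n, PX (insert x (insert w X)) ≤
      C * ((n : ℝ) ^ (91 / 48 : ℝ) * (X.card : ℝ) ^ (5 / 96 : ℝ)) * PX (insert w X) := by
  classical
  obtain ⟨c, C, hc, hC, h⟩ := add_point hAr
  refine ⟨9 + 25 * C, by positivity, fun n hn w hw X h0 hXn => ?_⟩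
  have hX : X.Nonempty := ⟨_, h0⟩
  have hn1 : (1 : ℝ) ≤ n := by exact_mod_cast hn
  have hn0 : (0 : ℝ) < n := by linarith
  obtain ⟨D, hD⟩ := exists_diam (X := insert w X) (Finset.insert_nonempty _ _)
  choose d hd using exists_near hX
  have hP := Pool.Agent.Y244.PC.PX_nonneg (insert w X)
  set j : ℝ := (X.card : ℝ) with hj
  have hj1 : (1 : ℝ) ≤ j := by
    rw [hj]
    exact_mod_cast hX.card_pos
  have hj0 : 0 < j := by linarith
  have hj9 : j ≤ 9 * (n : ℝ) ^ 2 := by
    calc j ≤ ((bx n).card : ℝ) := by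
          rw [hj]
          exact_mod_cast Finset.card_le_card hXn
      _ ≤ 9 * (n : ℝ) ^ 2 := by
          rw [w_card_bx]
          nlinarith
  have h1 : ∑ x ∈ bx n, PX (insert x (insert w X)) =
      ∑ x ∈ bx n \ X, PX (insert x (insert w X)) + ∑ x ∈ X, PX (insert x (insert w X)) :=
    (Finset.sum_sdiff hXn).symm
  have h2 : ∑ x ∈ X, PX (insert x (insert w X)) = j * PX (insert w X) := by
    rw [Finset.sum_congr rfl (fun x hx => by
      rw [Finset.insert_eq_of_mem (Finset.mem_insert_of_mem hx)]), Finset.sum_const,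
      nsmul_eq_mul]
  have h3 : ∑ x ∈ bx n \ X, PX (insert x (insert w X)) ≤
      C * (25 * ((n : ℝ) ^ (91 / 48 : ℝ) * j ^ (5 / 96 : ℝ))) * PX (insert w X) := by
    calc ∑ x ∈ bx n \ X, PX (insert x (insert w X))
        ≤ ∑ x ∈ bx n \ X, C * (d x : ℝ) ^ (-(5 / 48 : ℝ)) * PX (insert w X) := by
          apply Finset.sum_le_sum
          intro x hx
          rw [Finset.mem_sdiff] at hx
          obtain ⟨hxn, hxX⟩ := hx
          rw [w_mem_bx] at hxn
          have hxw : x ≠ w := by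
            rintro rfl
            unfold nv at hw
            omega
          have hxY : x ∉ insert w X := by
            rw [Finset.mem_insert]
            tauto
          have hdw : d x ≤ sd x w := by
            have k1 : d x ≤ sd x (0, 0) := (hd x).2 ⟨_, h0, rfl⟩
            refine k1.trans ?_
            unfold sd
            unfold nv at hw
            simp only
            omega
          have h4 := (h (insert w X) x (d x) D hxY (near_insert (hd x) hdw) hD).2
          obtain ⟨⟨u, hu, hdu⟩, -⟩ := hd x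
          have hd1 : 1 ≤ d x := by
            rw [hdu]
            apply sd_pos
            rintro rfl
            exact hxX hu
          refine h4.trans ?_
          apply mul_le_mul_of_nonneg_right _ hP
          exact mul_le_mul_of_nonneg_left (fac_le hd1 D) hC.le
      _ = C * (∑ x ∈ bx n \ X, (d x : ℝ) ^ (-(5 / 48 : ℝ))) * PX (insert w X) := by
          rw [Finset.mul_sum, Finset.sum_mul]
      _ ≤ _ := by
          apply mul_le_mul_of_nonneg_right _ hP
          apply mul_le_mul_of_nonneg_left _ hC.le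
          exact near_sum hn hX hXn d (fun x _ => hd x)
  have h5 : j ≤ 9 * ((n : ℝ) ^ (91 / 48 : ℝ) * j ^ (5 / 96 : ℝ)) := by
    have e1 : j = j ^ (91 / 96 : ℝ) * j ^ (5 / 96 : ℝ) := by
      rw [← Real.rpow_add hj0]
      norm_num
    have e2 : j ^ (91 / 96 : ℝ) ≤ 9 * (n : ℝ) ^ (91 / 48 : ℝ) := by
      calc j ^ (91 / 96 : ℝ) ≤ (9 * (n : ℝ) ^ 2) ^ (91 / 96 : ℝ) :=
            Real.rpow_le_rpow hj0.le hj9 (by norm_num)
        _ = 9 ^ (91 / 96 : ℝ) * (n : ℝ) ^ (91 / 48 : ℝ) := by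
            rw [Real.mul_rpow (by norm_num) (by positivity), ← Real.rpow_natCast (n : ℝ) 2,
              ← Real.rpow_mul hn0.le]
            norm_num
        _ ≤ 9 ^ (1 : ℝ) * (n : ℝ) ^ (91 / 48 : ℝ) := by
            apply mul_le_mul_of_nonneg_right _ (by positivity)
            exact Real.rpow_le_rpow_of_exponent_le (by norm_num) (by norm_num)
        _ = _ := by rw [Real.rpow_one]
    calc j = j ^ (91 / 96 : ℝ) * j ^ (5 / 96 : ℝ) := e1
      _ ≤ 9 * (n : ℝ) ^ (91 / 48 : ℝ) * j ^ (5 / 96 : ℝ) :=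
          mul_le_mul_of_nonneg_right e2 (Real.rpow_nonneg hj0.le _)
      _ = _ := mul_assoc _ _ _
  rw [h1, h2]
  have h6 : j * PX (insert w X) ≤
      9 * ((n : ℝ) ^ (91 / 48 : ℝ) * j ^ (5 / 96 : ℝ)) * PX (insert w X) :=
    mul_le_mul_of_nonneg_right h5 hP
  calc _ ≤ C * (25 * ((n : ℝ) ^ (91 / 48 : ℝ) * j ^ (5 / 96 : ℝ))) * PX (insert w X) +
        9 * ((n : ℝ) ^ (91 / 48 : ℝ) * j ^ (5 / 96 : ℝ)) * PX (insert w X) := add_le_add h3 h6
    _ = _ := by ring

theorem W_far {C : ℝ} (hC : 0 < C) {n : ℕ} (hn : 1 ≤ n) {w : Vtx}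
    (h : ∀ X : Finset Vtx, (0, 0) ∈ X → X ⊆ bx n → ∑ x ∈ bx n, PX (insert x (insert w X)) ≤
      C * ((n : ℝ) ^ (91 / 48 : ℝ) * (X.card : ℝ) ^ (5 / 96 : ℝ)) * PX (insert w X)) (k : ℕ) :
    ∀ (X : Finset Vtx) (J : ℕ), (0, 0) ∈ X → X ⊆ bx n → X.card + k ≤ J →
    W n k (insert w X) ≤
      (C * ((n : ℝ) ^ (91 / 48 : ℝ) * (J : ℝ) ^ (5 / 96 : ℝ))) ^ k * PX (insert w X) := by
  induction k with
  | zero =>
    intro X J _ _ _
    rw [pow_zero, one_mul]
    exact le_rfl
  | succ k ih =>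
    intro X J h0 hXn hJ
    have hn0 : (0 : ℝ) < n := by exact_mod_cast hn
    set B : ℝ := C * ((n : ℝ) ^ (91 / 48 : ℝ) * (J : ℝ) ^ (5 / 96 : ℝ)) with hB
    have hB0 : 0 ≤ B := by positivity
    show ∑ x ∈ bx n, W n k (insert x (insert w X)) ≤ B ^ (k + 1) * PX (insert w X)
    calc ∑ x ∈ bx n, W n k (insert x (insert w X))
        ≤ ∑ x ∈ bx n, B ^ k * PX (insert x (insert w X)) := by
          apply Finset.sum_le_sum
          intro x hx
          rw [Finset.insert_comm]
          apply ih _ J (Finset.mem_insert_of_mem h0) (Finset.insert_subset hx hXn)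
          have := Finset.card_insert_le x X
          omega
      _ = B ^ k * ∑ x ∈ bx n, PX (insert x (insert w X)) := by rw [Finset.mul_sum]
      _ ≤ B ^ k * (B * PX (insert w X)) := by
          apply mul_le_mul_of_nonneg_left _ (by positivity)
          refine (h X h0 hXn).trans ?_
          apply mul_le_mul_of_nonneg_right _ (Pool.Agent.Y244.PC.PX_nonneg _)
          rw [hB]
          apply mul_le_mul_of_nonneg_left _ hC.le
          apply mul_le_mul_of_nonneg_left _ (by positivity)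
          apply Real.rpow_le_rpow (by positivity) _ (by norm_num)
          exact_mod_cast (by omega : X.card ≤ J)
      _ = B ^ (k + 1) * PX (insert w X) := by ring

/-- the critical law -/
noncomputable abbrev μc : Measure (sqLattice.edgeSet → Bool) := bondLaw hlf

theorem PX_pair (w : Vtx) :
    PX (insert w {((0, 0) : Vtx)}) = μc.real {ω | Reach (opn ω) (0, 0) w} := by
  unfold PX
  congr 1
  ext ω
  constructor
  · intro h
    exact h (0, 0) (by simp) w (by simp)
  · intro h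
    have key : ∀ u ∈ (insert w {((0, 0) : Vtx)} : Finset Vtx), Reach (opn ω) (0, 0) u := by
      intro u hu
      rcases Finset.mem_insert.mp hu with rfl | hu
      · exact h
      · rw [Finset.mem_singleton] at hu
        rw [hu]
        exact Reach.refl _ _
    intro u hu v hv
    exact (key u hu).symm.trans (key v hv)

/-- **upper tail of the volume, conditioned on a far connection to a point** -/
theorem tail_w (hAr : ArS) : ∃ c C : ℝ, 0 < c ∧ 0 < C ∧ ∀ n : ℕ, 1 ≤ n → ∀ w : Vtx,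
    3 * n ≤ nv w → ∀ x : ℝ, 1 ≤ x →
    μc.real {ω | Vn n (x * (n : ℝ) ^ (91 / 48 : ℝ)) (opn ω) ∧ Reach (opn ω) (0, 0) w} ≤
      C * Real.exp (-(c * x ^ (96 / 5 : ℝ))) * μc.real {ω | Reach (opn ω) (0, 0) w} := by
  obtain ⟨C, hC, h⟩ := step_far hAr
  set b : ℝ := 1 / (Real.exp 1 * C) with hb
  have he := Real.exp_pos 1
  have hb0 : 0 < b := by positivity
  refine ⟨b ^ (96 / 5 : ℝ), Real.exp 2, by positivity, by positivity, fun n hn w hw x hx => ?_⟩
  have hn0 : (0 : ℝ) < n := by exact_mod_cast hn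
  have hx0 : 0 < x := by linarith
  set t : ℝ := (b * x) ^ (96 / 5 : ℝ) with ht
  have ht0 : 0 < t := by positivity
  have htx : b ^ (96 / 5 : ℝ) * x ^ (96 / 5 : ℝ) = t := by
    rw [ht, Real.mul_rpow hb0.le hx0.le]
  rw [htx]
  set N : ℝ := x * (n : ℝ) ^ (91 / 48 : ℝ) with hN
  have hN0 : 0 < N := by positivity
  set p : ℝ := μc.real {ω | Reach (opn ω) (0, 0) w} with hp
  have hp0 : 0 ≤ p := measureReal_nonneg
  by_cases h2 : t < 1
  · have h1 : μc.real {ω | Vn n N (opn ω) ∧ Reach (opn ω) (0, 0) w} ≤ p :=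
      measureReal_mono (fun ω hω => hω.2)
    have h3 : (1 : ℝ) ≤ Real.exp 2 * Real.exp (-t) := by
      rw [← Real.exp_add]
      apply Real.one_le_exp
      linarith
    nlinarith
  · push Not at h2
    obtain ⟨k, hk⟩ : ∃ k : ℕ, ⌊t⌋₊ = k + 1 := by
      have : 1 ≤ ⌊t⌋₊ := Nat.le_floor (by exact_mod_cast h2)
      exact ⟨⌊t⌋₊ - 1, by omega⟩
    have hk1 : ((k + 1 : ℕ) : ℝ) ≤ t := by
      rw [← hk]
      exact Nat.floor_le ht0.le
    have hk2 : t < (k : ℝ) + 2 := by
      have := Nat.lt_floor_add_one t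
      rw [hk] at this
      push_cast at this
      linarith
    have hW := W_far hC hn (h n hn w hw) k {((0, 0) : Vtx)} (k + 1) (by simp)
      (by intro u hu; rw [Finset.mem_singleton] at hu; rw [hu, w_mem_bx]; simp)
      (by rw [Finset.card_singleton]; omega)
    rw [PX_pair] at hW
    have h6 : ((k + 1 : ℕ) : ℝ) ^ (5 / 96 : ℝ) ≤ b * x := by
      calc ((k + 1 : ℕ) : ℝ) ^ (5 / 96 : ℝ) ≤ t ^ (5 / 96 : ℝ) :=
            Real.rpow_le_rpow (by positivity) hk1 (by norm_num)
        _ = b * x := by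
            rw [ht, ← Real.rpow_mul (by positivity)]
            norm_num
    have h7 : C * ((n : ℝ) ^ (91 / 48 : ℝ) * ((k + 1 : ℕ) : ℝ) ^ (5 / 96 : ℝ)) ≤
        N * Real.exp (-1) := by
      calc C * ((n : ℝ) ^ (91 / 48 : ℝ) * ((k + 1 : ℕ) : ℝ) ^ (5 / 96 : ℝ))
          ≤ C * ((n : ℝ) ^ (91 / 48 : ℝ) * (b * x)) := by
            apply mul_le_mul_of_nonneg_left _ hC.le
            exact mul_le_mul_of_nonneg_left h6 (by positivity)
        _ = N * Real.exp (-1) := by
            rw [hN, hb, Real.exp_neg]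
            field_simp
    have h8 : μc.real {ω | Vn n N (opn ω) ∧ Reach (opn ω) (0, 0) w} ≤ Real.exp (-1) ^ k * p := by
      refine InfAux.upper (fun F : Set Edg => Vn n N F ∧ Reach F (0, 0) w)
        (fun F G hFG hF => ⟨hF.1.mono hFG, hF.2.mono hFG⟩) ?_ _ (fun m => ?_)
      · rintro F ⟨h1, h2⟩
        obtain ⟨m1, h1⟩ := h1.box
        obtain ⟨m2, h2⟩ := InfAux.reach_box h2
        refine ⟨max m1 m2, h1.mono ?_, h2.mono ?_⟩
        · exact Set.inter_subset_inter_right _ (InfAux.boxE_coe_mono (le_max_left _ _))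
        · exact Set.inter_subset_inter_right _ (InfAux.boxE_coe_mono (le_max_right _ _))
      · have h9 := (vn_moment (n := n) hN0.le w m k).trans hW
        have h10 : (C * ((n : ℝ) ^ (91 / 48 : ℝ) * ((k + 1 : ℕ) : ℝ) ^ (5 / 96 : ℝ))) ^ k * p ≤
            N ^ k * (Real.exp (-1) ^ k * p) := by
          have e : N ^ k * (Real.exp (-1) ^ k * p) = (N * Real.exp (-1)) ^ k * p := by
            rw [mul_pow]; ring
          rw [e]
          apply mul_le_mul_of_nonneg_right _ hp0
          exact pow_le_pow_left₀ (by positivity) h7 k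
        exact le_of_mul_le_mul_left (h9.trans h10) (by positivity)
    refine h8.trans (mul_le_mul_of_nonneg_right ?_ hp0)
    rw [← Real.exp_nat_mul, ← Real.exp_add]
    apply Real.exp_le_exp.mpr
    linarith

end Run7.h495.IIC
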